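import Pool.Agent.Helper61.DIH.Eigen

/-!
Helpers for problem MP_249799_al: the dihedral theorem in an abstract setting.  `C` is a division
ring over its centre `L`, `R` stands for `E ⊗ C` with `E` quadratic over `L`, `τ` for the
involutive automorphism with fixed ring `C`, and `K` for `E ⊗ M` with `M` a subfield of `C`.
-/

set_option autoImplicit false

namespace Pool.Agent.Helper61.DIH

open Pool.Agent.Helper4.GAL Polynomial

/-- The abstract setting. -/
structure Setup (L E C R K : Type*) [Field L] [Field E] [Algebra L E] [DivisionRing C]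
    [Algebra L C] [DivisionRing R] [Algebra E R] [Field K] [Algebra E K] where
  j : C →+* R
  τ : R →+* R
  s : E →+* E
  t : K →+* K
  Φ : K →ₐ[E] R
  ττ : ∀ r, τ (τ r) = r
  tt : ∀ k, t (t k) = k
  ss : ∀ e, s (s e) = e
  fix : ∀ r, τ r = r → ∃ c, j c = r
  jτ : ∀ c, τ (j c) = j c
  cen : ∀ x : R, (∀ y : R, y * x = x * y) → x ∈ Set.range (algebraMap E R)
  Φt : ∀ k, τ (Φ k) = Φ (t k)
  st : ∀ e, t (algebraMap E K e) = algebraMap E K (s e)
  lin : ∀ l : L, j (algebraMap L C l) = algebraMap E R (algebraMap L E l)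
  fixs : ∀ e, s e = e → ∃ l : L, algebraMap L E l = e

namespace Setup

variable {L E C R K : Type*} [Field L] [Field E] [Algebra L E] [DivisionRing C]
    [Algebra L C] [DivisionRing R] [Algebra E R] [Field K] [Algebra E K]

theorem sτ (S : Setup L E C R K) (e : E) :
    S.τ (algebraMap E R e) = algebraMap E R (S.s e) := by
  have h1 : algebraMap E R e = S.Φ (algebraMap E K e) := (S.Φ.commutes e).symm
  rw [h1, S.Φt, S.st, AlgHom.commutes]

theorem sl (S : Setup L E C R K) (l : L) : S.s (algebraMap L E l) = algebraMap L E l := by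
  apply (algebraMap E R).injective
  rw [← S.sτ, ← S.lin, S.jτ]

/-- The conjugating element. -/
theorem exists_y [FiniteDimensional E K] (S : Setup L E C R K) (ρ : K ≃ₐ[E] K) (x : K) :
    ∃ y : R, y ≠ 0 ∧ y * S.Φ x = S.Φ (ρ x) * y := by
  have hinj : Function.Injective S.Φ := S.Φ.toRingHom.injective
  have hx : IsIntegral E x := IsIntegral.of_finite E x
  refine exists_conj S.cen (S.Φ x) (S.Φ (ρ x)) (hx.map S.Φ) ?_
  rw [minpoly.algHom_eq S.Φ hinj, aeval_algHom_apply, aeval_algHom_apply, minpoly.aeval,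
    map_zero, map_zero]

/-- Kummer case with the root of unity in `L`. -/
theorem kummer [FiniteDimensional E K] (S : Setup L E C R K) (halg : Algebra.IsAlgebraic L C)
    (ρ : K ≃ₐ[E] K) (hρ : ρ ≠ 1) (l : ℕ) (hl : Odd l) (hρl : ρ ^ l = 1) (ζ : L)
    (hζ : IsPrimitiveRoot ζ l) (hinv : ∀ k, ρ (S.t k) = S.t (ρ.symm k)) : Good L C := by
  have hl0 : 0 < l := hl.pos
  have : NeZero l := ⟨hl0.ne'⟩
  have hζE : IsPrimitiveRoot (algebraMap L E ζ) l := hζ.map_of_injective (algebraMap L E).injective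
  obtain ⟨s, hs, hs1, m, hm, hρm⟩ := exists_eigen_kummer ρ hρ l hl0 hρl (algebraMap L E ζ) hζE
  obtain ⟨i, -, hi⟩ := hζE.eq_pow_of_pow_eq_one hs
  rw [← map_pow] at hi
  set z := ζ ^ i with hz
  have hzl : z ^ l = 1 := by rw [hz, ← pow_mul, mul_comm, pow_mul, hζ.pow_eq_one, one_pow]
  have hz0 : z ≠ 0 := by
    intro h0
    rw [h0, zero_pow hl0.ne'] at hzl
    exact zero_ne_one hzl
  have hz1 : z ≠ 1 := by
    intro h0
    rw [h0, map_one] at hi
    exact hs1 hi.symm
  have hz8 : z ^ 8 ≠ 1 := by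
    intro h0
    have h1 : orderOf z ∣ 8 := orderOf_dvd_of_pow_eq_one h0
    have h2 : orderOf z ∣ l := orderOf_dvd_of_pow_eq_one hzl
    have h3 : Nat.Coprime 8 l := by
      have : Nat.Coprime 2 l := (Nat.coprime_two_left).2 hl
      exact Nat.Coprime.pow_left 3 this
    have h4 : orderOf z ∣ 1 := by
      rw [← Nat.Coprime.gcd_eq_one h3]
      exact Nat.dvd_gcd h1 h2
    exact hz1 (orderOf_eq_one_iff.1 (Nat.dvd_one.1 h4))
  have htm : S.t m ≠ 0 := by
    intro h0
    apply hm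
    rw [← S.tt m, h0, map_zero]
  have hs0 : s ≠ 0 := by
    rw [← hi]
    intro h0
    apply hz0
    apply (algebraMap L E).injective
    rw [h0, map_zero]
  have hss : S.s s = s := by rw [← hi, S.sl]
  -- the element `x`
  set x := m / S.t m with hx
  have hx0 : x ≠ 0 := div_ne_zero hm htm
  have htx : S.t x = x⁻¹ := by
    rw [hx, map_div₀, S.tt, inv_div]
  have hρsm : ρ.symm m = s⁻¹ • m := by
    have h1 : ρ.symm (s • m) = m := by rw [← hρm, AlgEquiv.symm_apply_apply]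
    rw [map_smul] at h1
    rw [eq_inv_smul_iff₀ hs0]
    exact h1
  have hρtm : ρ (S.t m) = s⁻¹ • S.t m := by
    rw [hinv, hρsm, Algebra.smul_def, map_mul, S.st, map_inv₀, hss, Algebra.smul_def]
  have hρx : ρ x = algebraMap E K (s ^ 2) * x := by
    rw [hx, map_div₀, hρm, hρtm, Algebra.smul_def, Algebra.smul_def, map_inv₀, map_pow]
    have : algebraMap E K s ≠ 0 := by
      intro h0
      apply hs0
      apply (algebraMap E K).injective
      rw [h0, map_zero]
    field_simp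
  obtain ⟨y, hy0, hy⟩ := S.exists_y ρ x
  rw [hρx, map_mul, AlgHom.commutes] at hy
  set X := S.Φ x with hX
  have hX0 : X ≠ 0 := by
    intro h0
    apply hx0
    apply (S.Φ.toRingHom.injective)
    show S.Φ x = S.Φ 0
    rw [← hX, h0, map_zero]
  have hτX : S.τ X = X⁻¹ := by
    rw [hX, S.Φt, htx, map_inv₀]
  set Z := algebraMap E R (s ^ 2) with hZ
  have hZc : ∀ r : R, Z * r = r * Z := fun r => Algebra.commutes _ _
  have hZ0 : Z ≠ 0 := by
    intro h0
    apply pow_ne_zero 2 hs0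
    apply (algebraMap E R).injective
    rw [← hZ, h0, map_zero]
  have hτZ : S.τ Z = Z := by
    rw [hZ, S.sτ, map_pow, hss]
  have hτy0 : S.τ y ≠ 0 := by
    intro h0
    apply hy0
    rw [← S.ττ y, h0, map_zero]
  have hτy : S.τ y * X⁻¹ = Z * X⁻¹ * S.τ y := by
    have h1 := congrArg S.τ hy
    rw [map_mul, map_mul, map_mul, hτX, hτZ] at h1
    exact h1
  have hτy2 : (S.τ y)⁻¹ * X = Z * X * (S.τ y)⁻¹ := by
    have h1 := congrArg (fun r => r⁻¹) hτy
    simp only [mul_inv_rev, inv_inv] at h1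
    have h2 : Z * (X * (S.τ y)⁻¹) = Z * ((S.τ y)⁻¹ * (X * Z⁻¹)) := by rw [h1]
    have h3 : Z * ((S.τ y)⁻¹ * (X * Z⁻¹)) = (S.τ y)⁻¹ * X * (Z * Z⁻¹) := by
      calc Z * ((S.τ y)⁻¹ * (X * Z⁻¹)) = Z * ((S.τ y)⁻¹ * X) * Z⁻¹ := by noncomm_ring
        _ = ((S.τ y)⁻¹ * X) * Z * Z⁻¹ := by rw [hZc]
        _ = (S.τ y)⁻¹ * X * (Z * Z⁻¹) := by noncomm_ring
    rw [h3, mul_inv_cancel₀ hZ0, mul_one] at h2
    rw [← h2]
    noncomm_ring
  have hjz : S.j (algebraMap L C (z ^ 4)) = Z * Z := by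
    rw [S.lin, map_pow, hi, hZ, ← map_mul]
    congr 1
    ring
  refine core_kummer halg S.j S.τ S.fix (z ^ 4) (pow_ne_zero 4 hz0) ?_ ?_ X
    ((S.τ y)⁻¹ * y) hX0 (mul_ne_zero (inv_ne_zero hτy0) hy0) ?_ hτX ?_
  · rw [← pow_add]
    exact hz8
  · intro r
    rw [hjz]
    calc Z * Z * r = Z * (Z * r) := by noncomm_ring
      _ = (Z * r) * Z := by rw [hZc]
      _ = (r * Z) * Z := by rw [hZc r]
      _ = r * (Z * Z) := by noncomm_ring
  · rw [hjz]
    calc (S.τ y)⁻¹ * y * X = (S.τ y)⁻¹ * (y * X) := by noncomm_ring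
      _ = (S.τ y)⁻¹ * (Z * X * y) := by rw [hy]
      _ = ((S.τ y)⁻¹ * Z) * X * y := by noncomm_ring
      _ = Z * ((S.τ y)⁻¹ * X) * y := by rw [← hZc]; noncomm_ring
      _ = Z * (Z * X * (S.τ y)⁻¹) * y := by rw [hτy2]
      _ = Z * Z * X * ((S.τ y)⁻¹ * y) := by noncomm_ring
  · rw [map_mul, map_inv₀, S.ττ, mul_inv_rev, inv_inv]

end Setup

end Pool.Agent.Helper61.DIH
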