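import Pool.Agent.Helper61.DIH.Abs

/-!
Helpers for problem MP_249799_al: the dihedral theorem in an abstract setting, continued.
-/

set_option autoImplicit false

namespace Pool.Agent.Helper61.DIH

open Pool.Agent.Helper4.GAL Polynomial

namespace Setup

variable {L E C R K : Type*} [Field L] [Field E] [Algebra L E] [DivisionRing C]
    [Algebra L C] [DivisionRing R] [Algebra E R] [Field K] [Algebra E K]

/-- Artin-Schreier case. -/
theorem artinSchreier [FiniteDimensional E K] (S : Setup L E C R K)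
    (halg : Algebra.IsAlgebraic L C) (ρ : K ≃ₐ[E] K) (hρ : ρ ≠ 1) (l : ℕ) (hl : l.Prime)
    (hodd : l ≠ 2) (hρl : ρ ^ l = 1) [CharP E l] (ε : E) (hε : S.s ε ≠ ε)
    (hinv : ∀ k, ρ (S.t k) = S.t (ρ.symm k)) : Good L C := by
  obtain ⟨x₀, hx₀⟩ := exists_AS ρ hρ l hl hρl
  have h2E : (2 : E) ≠ 0 := by
    intro h0
    have h1 : ((2 : ℕ) : E) = 0 := by exact_mod_cast h0
    rw [CharP.cast_eq_zero_iff E l] at h1
    exact hodd ((Nat.prime_dvd_prime_iff_eq hl Nat.prime_two).1 h1)
  have h2K : (2 : K) ≠ 0 := by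
    intro h0
    apply h2E
    apply (algebraMap E K).injective
    rw [map_ofNat, map_zero]
    exact h0
  have h2R : (2 : R) ≠ 0 := by
    intro h0
    apply h2E
    apply (algebraMap E R).injective
    rw [map_ofNat, map_zero]
    exact h0
  have hsymm : ρ.symm x₀ = x₀ - 1 := by
    rw [AlgEquiv.symm_apply_eq, map_sub, map_one, hx₀]
    ring
  have hρt : ρ (S.t x₀) = S.t x₀ - 1 := by
    rw [hinv, hsymm, map_sub, map_one]
  set x := (x₀ - S.t x₀) / 2 with hx
  have hρx : ρ x = x + 1 := by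
    rw [hx, map_div₀, map_sub, hx₀, hρt, map_ofNat]
    field_simp
    ring
  have htx : S.t x = - x := by
    rw [hx, map_div₀, map_sub, S.tt, map_ofNat]
    ring
  obtain ⟨y, hy0, hy⟩ := S.exists_y ρ x
  rw [hρx, map_add, map_one] at hy
  set X := S.Φ x with hX
  have hτX : S.τ X = - X := by
    rw [hX, S.Φt, htx, map_neg]
  have hτy0 : S.τ y ≠ 0 := by
    intro h0
    apply hy0
    rw [← S.ττ y, h0, map_zero]
  have hτy : S.τ y * (-X) = (-X + 1) * S.τ y := by
    have h1 := congrArg S.τ hy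
    rw [map_mul, map_mul, map_add, map_one, hτX] at h1
    exact h1
  have hτy2 : (S.τ y)⁻¹ * X = (X + 1) * (S.τ y)⁻¹ := by
    have h1 : S.τ y * X = (X - 1) * S.τ y := by
      linear_combination (norm := noncomm_ring) - hτy
    have h2 : (S.τ y)⁻¹ * (S.τ y * X) * (S.τ y)⁻¹ = (S.τ y)⁻¹ * ((X - 1) * S.τ y) * (S.τ y)⁻¹ := by
      rw [h1]
    rw [← mul_assoc, inv_mul_cancel₀ hτy0, one_mul, mul_assoc, mul_assoc,
      mul_inv_cancel₀ hτy0, mul_one] at h2
    linear_combination (norm := noncomm_ring) - h2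
  refine core_AS halg S.j S.τ S.fix h2R (algebraMap E R (ε - S.s ε)) ?_ ?_ ?_ X
    ((S.τ y)⁻¹ * y) (mul_ne_zero (inv_ne_zero hτy0) hy0) ?_ hτX ?_
  · intro h0
    apply hε
    have h1 : ε - S.s ε = 0 := by
      apply (algebraMap E R).injective
      rw [h0, map_zero]
    exact (sub_eq_zero.1 h1).symm
  · intro r
    exact Algebra.commutes _ _
  · rw [S.sτ, map_sub, S.ss, ← map_neg, neg_sub]
  · calc (S.τ y)⁻¹ * y * X = (S.τ y)⁻¹ * (y * X) := by noncomm_ring
      _ = (S.τ y)⁻¹ * ((X + 1) * y) := by rw [hy]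
      _ = ((S.τ y)⁻¹ * X) * y + (S.τ y)⁻¹ * y := by noncomm_ring
      _ = ((X + 1) * (S.τ y)⁻¹) * y + (S.τ y)⁻¹ * y := by rw [hτy2]
      _ = (X + (1 + 1)) * ((S.τ y)⁻¹ * y) := by noncomm_ring
      _ = (X + 2) * ((S.τ y)⁻¹ * y) := by rw [one_add_one_eq_two]
  · rw [map_mul, map_inv₀, S.ττ, mul_inv_rev, inv_inv]

/-- Kummer case with the root of unity in `E` but not in `L`. -/
theorem kummer_twist [FiniteDimensional E K] (S : Setup L E C R K)
    (hcen : ∀ x : C, (∀ y : C, y * x = x * y) → x ∈ Set.range (algebraMap L C))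
    (halg : Algebra.IsAlgebraic L C)
    (ρ : K ≃ₐ[E] K) (hρ : ρ ≠ 1) (l : ℕ) (hl : 0 < l) (hρl : ρ ^ l = 1) (ζ : E)
    (hζ : IsPrimitiveRoot ζ l) (hsζ : S.s ζ = ζ⁻¹) (ε : E) (hε : S.s ε ≠ ε)
    (hinv : ∀ k, ρ (S.t k) = S.t (ρ.symm k)) : Good L C := by
  have : NeZero l := ⟨hl.ne'⟩
  obtain ⟨s, hs, hs1, m, hm, hρm⟩ := exists_eigen_kummer ρ hρ l hl hρl ζ hζ
  obtain ⟨i, -, hi⟩ := hζ.eq_pow_of_pow_eq_one hs
  have hs0 : s ≠ 0 := by
    intro h0
    rw [h0, zero_pow hl.ne'] at hs
    exact zero_ne_one hs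
  have hss : S.s s = s⁻¹ := by rw [← hi, map_pow, hsζ, inv_pow]
  have hρsm : ρ.symm m = s⁻¹ • m := by
    have h1 : ρ.symm (s • m) = m := by rw [← hρm, AlgEquiv.symm_apply_apply]
    rw [map_smul] at h1
    rw [eq_inv_smul_iff₀ hs0]
    exact h1
  have hρtm : ρ (S.t m) = s • S.t m := by
    rw [hinv, hρsm, Algebra.smul_def, map_mul, S.st, map_inv₀, hss, inv_inv, Algebra.smul_def]
  -- a fixed eigenvector
  obtain ⟨x, hx0, hρx, htx⟩ : ∃ x : K, x ≠ 0 ∧ ρ x = algebraMap E K s * x ∧ S.t x = x := by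
    by_cases h0 : m + S.t m = 0
    · refine ⟨algebraMap E K (ε - S.s ε) * m, ?_, ?_, ?_⟩
      · refine mul_ne_zero ?_ hm
        intro h1
        apply hε
        have h2 : ε - S.s ε = 0 := by
          apply (algebraMap E K).injective
          rw [h1, map_zero]
        exact (sub_eq_zero.1 h2).symm
      · rw [map_mul, AlgEquiv.commutes, hρm, Algebra.smul_def]
        ring
      · rw [map_mul, S.st, map_sub, S.ss, eq_neg_of_add_eq_zero_right h0, ← neg_sub ε,
          map_neg]
        ring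
    · refine ⟨m + S.t m, h0, ?_, ?_⟩
      · rw [map_add, hρm, hρtm, Algebra.smul_def, Algebra.smul_def]
        ring
      · rw [map_add, S.tt, add_comm]
  obtain ⟨y, hy0, hy⟩ := S.exists_y ρ x
  rw [hρx, map_mul, AlgHom.commutes] at hy
  set X := S.Φ x with hX
  have hX0 : X ≠ 0 := by
    intro h0
    apply hx0
    apply (S.Φ.toRingHom.injective)
    show S.Φ x = S.Φ 0
    rw [← hX, h0, map_zero]
  have hτX : S.τ X = X := by rw [hX, S.Φt, htx]
  obtain ⟨c, hc⟩ := S.fix X hτX
  have hc0 : c ≠ 0 := by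
    intro h0
    rw [h0, map_zero] at hc
    exact hX0 hc.symm
  set Z := algebraMap E R s with hZ
  set Z' := algebraMap E R s⁻¹ with hZ'
  have hZc : ∀ r : R, Z * r = r * Z := fun r => Algebra.commutes _ _
  have hZc' : ∀ r : R, Z' * r = r * Z' := fun r => Algebra.commutes _ _
  have hZZ : Z' * Z = 1 := by rw [hZ, hZ', ← map_mul, inv_mul_cancel₀ hs0, map_one]
  have hτZ : S.τ Z = Z' := by rw [hZ, S.sτ, hss]
  have hτy : S.τ y * X = Z' * X * S.τ y := by
    have h1 := congrArg S.τ hy
    rw [map_mul, map_mul, map_mul, hτX, hτZ] at h1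
    exact h1
  -- conjugation by `X` on `y` and on `τ y`
  have hXy : X * y = Z' * y * X := by
    calc X * y = (Z' * Z) * (X * y) := by rw [hZZ, one_mul]
      _ = Z' * (Z * X * y) := by noncomm_ring
      _ = Z' * (y * X) := by rw [hy]
      _ = Z' * y * X := by noncomm_ring
  have hXτy : X * S.τ y = Z * S.τ y * X := by
    have hZZ' : Z * Z' = 1 := by rw [hZc]; exact hZZ
    calc X * S.τ y = (Z * Z') * (X * S.τ y) := by rw [hZZ', one_mul]
      _ = Z * (Z' * X * S.τ y) := by noncomm_ring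
      _ = Z * (S.τ y * X) := by rw [hτy]
      _ = Z * S.τ y * X := by noncomm_ring
  -- the trace of `s`
  obtain ⟨α, hα⟩ := S.fixs (s + s⁻¹) (by rw [map_add, map_inv₀, hss, inv_inv, add_comm])
  have hαR : S.j (algebraMap L C α) = Z + Z' := by
    rw [S.lin, hα, map_add]
  -- the general statement
  have key : ∀ e : E, ∃ u : C, S.j u = algebraMap E R e * y + algebraMap E R (S.s e) * S.τ y ∧
      (c * (c * u)) = algebraMap L C α * (c * u * c) - (u * c) * c := by
    intro e
    obtain ⟨u, hu⟩ := S.fix (algebraMap E R e * y + algebraMap E R (S.s e) * S.τ y) (by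
      rw [map_add, map_mul, map_mul, S.sτ, S.sτ, S.ss, S.ττ, add_comm])
    refine ⟨u, hu, ?_⟩
    apply S.j.injective
    rw [map_mul, map_mul, map_sub, map_mul, map_mul, map_mul, map_mul, map_mul, hαR, hc, hu]
    set e1 := algebraMap E R e with he1
    set e2 := algebraMap E R (S.s e) with he2
    have he1c : ∀ r : R, e1 * r = r * e1 := fun r => Algebra.commutes _ _
    have he2c : ∀ r : R, e2 * r = r * e2 := fun r => Algebra.commutes _ _
    have hXu : X * (e1 * y + e2 * S.τ y) = (Z' * e1 * y + Z * e2 * S.τ y) * X := by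
      calc X * (e1 * y + e2 * S.τ y) = (X * e1) * y + (X * e2) * S.τ y := by noncomm_ring
        _ = e1 * (X * y) + e2 * (X * S.τ y) := by rw [← he1c, ← he2c]; noncomm_ring
        _ = (e1 * Z') * y * X + (e2 * Z) * S.τ y * X := by rw [hXy, hXτy]; noncomm_ring
        _ = (Z' * e1 * y + Z * e2 * S.τ y) * X := by rw [← hZc', ← hZc]; noncomm_ring
    have hXu2 : X * (Z' * e1 * y + Z * e2 * S.τ y)
        = (Z' * Z' * e1 * y + Z * Z * e2 * S.τ y) * X := by
      calc X * (Z' * e1 * y + Z * e2 * S.τ y)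
          = (X * (Z' * e1)) * y + (X * (Z * e2)) * S.τ y := by noncomm_ring
        _ = ((Z' * e1) * X) * y + ((Z * e2) * X) * S.τ y := by
            have h1 : X * (Z' * e1) = (Z' * e1) * X := by
              rw [← mul_assoc, ← hZc', mul_assoc, ← he1c, mul_assoc]
            have h2 : X * (Z * e2) = (Z * e2) * X := by
              rw [← mul_assoc, ← hZc, mul_assoc, ← he2c, mul_assoc]
            rw [h1, h2]
        _ = (Z' * e1) * (X * y) + (Z * e2) * (X * S.τ y) := by noncomm_ring
        _ = Z' * (e1 * Z') * y * X + Z * (e2 * Z) * S.τ y * X := by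
            rw [hXy, hXτy]; noncomm_ring
        _ = (Z' * Z' * e1 * y + Z * Z * e2 * S.τ y) * X := by
            rw [← hZc', ← hZc]; noncomm_ring
    rw [hXu, ← mul_assoc, hXu2]
    have hZZ' : Z * Z' = 1 := by rw [hZc]; exact hZZ
    linear_combination (norm := noncomm_ring) - hZZ' * e1 * y * X * X - hZZ * e2 * S.τ y * X * X
  -- one of the two elements is not fixed
  have hfinal : ∀ u : C, (c * (c * u)) = algebraMap L C α * (c * u * c) - (u * c) * c →
      c * u ≠ u * c → Good L C := by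
    intro u hu hne
    have hcc : c * c⁻¹ = 1 := mul_inv_cancel₀ hc0
    have hcc' : c⁻¹ * c = 1 := inv_mul_cancel₀ hc0
    refine good_of_two_dim hcen halg (B := L) (E := C) (AlgHom.id L C)
      ((LinearMap.mulLeft L c) ∘ₗ (LinearMap.mulRight L c⁻¹)) ?_ (Or.inl ?_) u α 1 ?_ ?_
    · show c * (1 * c⁻¹) = 1
      rw [one_mul, hcc]
    · intro a b
      show c * (a * b * c⁻¹) = (c * (a * c⁻¹)) * (c * (b * c⁻¹))
      linear_combination (norm := noncomm_ring) - (c * a * hcc' * b * c⁻¹)
    · show c * (u * c⁻¹) ≠ u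
      intro h0
      apply hne
      have h1 : c * (u * c⁻¹) * c = u * c := by rw [h0]
      rw [← mul_assoc, mul_assoc _ c⁻¹ c, hcc', mul_one] at h1
      exact h1
    · show c * (c * (u * c⁻¹) * c⁻¹) = α • (c * (u * c⁻¹)) - (1 : L) • u
      rw [one_smul, Algebra.smul_def]
      have h1 : c * (c * u) * c⁻¹ * c⁻¹
          = (algebraMap L C α * (c * u * c) - (u * c) * c) * c⁻¹ * c⁻¹ := by rw [hu]
      have h2 : (algebraMap L C α * (c * u * c) - (u * c) * c) * c⁻¹ * c⁻¹
          = algebraMap L C α * (c * u * (c * c⁻¹) * c⁻¹) - u * (c * (c * c⁻¹) * c⁻¹) := by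
        noncomm_ring
      rw [h2, hcc, mul_one, mul_one, hcc, mul_one] at h1
      rw [← mul_assoc c u c⁻¹, ← h1]
      noncomm_ring
  obtain ⟨u1, hu1, hk1⟩ := key 1
  obtain ⟨u2, hu2, hk2⟩ := key ε
  by_cases hf1 : c * u1 = u1 * c
  · by_cases hf2 : c * u2 = u2 * c
    · exfalso
      have g1 : X * S.j u1 = S.j u1 * X := by rw [← hc, ← map_mul, hf1, map_mul]
      have g2 : X * S.j u2 = S.j u2 * X := by rw [← hc, ← map_mul, hf2, map_mul]
      rw [map_one, map_one, map_one, one_mul, one_mul] at hu1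
      set e1 := algebraMap E R ε with he1
      set e2 := algebraMap E R (S.s ε) with he2
      have he1c : ∀ r : R, e1 * r = r * e1 := fun r => Algebra.commutes _ _
      have he2c : ∀ r : R, e2 * r = r * e2 := fun r => Algebra.commutes _ _
      rw [hu1] at g1
      rw [hu2] at g2
      have hd : e1 - e2 ≠ 0 := by
        intro h0
        apply hε
        have h2 : ε - S.s ε = 0 := by
          apply (algebraMap E R).injective
          rw [map_sub, map_zero]
          exact h0
        exact (sub_eq_zero.1 h2).symm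
      have g3 : (e1 - e2) * (X * y) = (e1 - e2) * (y * X) := by
        linear_combination (norm := noncomm_ring) g2 - e2 * g1 + he1c X * y
          + he2c X * S.τ y
      have g4 : X * y = y * X := mul_left_cancel₀ hd g3
      rw [hy] at g4
      apply hs1
      have h5 : X * y ≠ 0 := mul_ne_zero hX0 hy0
      have h6 : Z = 1 := by
        apply mul_right_cancel₀ h5
        rw [one_mul, ← mul_assoc]
        exact g4.symm
      apply (algebraMap E R).injective
      rw [map_one]
      exact h6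
    · exact hfinal u2 hk2 hf2
  · exact hfinal u1 hk1 hf1

end Setup

end Pool.Agent.Helper61.DIH
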