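import Pool.Agent.Helper61.DIH.Abs2

/-!
Helpers for problem MP_249799_al: the action of the involution on the automorphism group, and the
descent of a commuting automorphism.
-/

set_option autoImplicit false

namespace Pool.Agent.Helper61.DIH

open Pool.Agent.Helper4.GAL Polynomial

namespace Setup

variable {L E C R K : Type*} [Field L] [Field E] [Algebra L E] [DivisionRing C]
    [Algebra L C] [DivisionRing R] [Algebra E R] [Field K] [Algebra E K]

/-- The involution as a ring isomorphism. -/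
def tE (S : Setup L E C R K) : K ≃+* K :=
  { S.t with
    invFun := S.t
    left_inv := S.tt
    right_inv := S.tt }

/-- Conjugation of an automorphism by the involution. -/
noncomputable def conjAut (S : Setup L E C R K) (ρ : K ≃ₐ[E] K) : K ≃ₐ[E] K :=
  AlgEquiv.ofRingEquiv (f := S.tE.trans (ρ.toRingEquiv.trans S.tE)) (fun e => by
    show S.t (ρ (S.t (algebraMap E K e))) = algebraMap E K e
    rw [S.st, AlgEquiv.commutes, S.st, S.ss])

theorem conjAut_apply (S : Setup L E C R K) (ρ : K ≃ₐ[E] K) (k : K) :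
    S.conjAut ρ k = S.t (ρ (S.t k)) := rfl

/-- Conjugation by the involution as a group homomorphism. -/
noncomputable def conjHom (S : Setup L E C R K) : (K ≃ₐ[E] K) →* (K ≃ₐ[E] K) where
  toFun := S.conjAut
  map_one' := by
    apply AlgEquiv.ext
    intro k
    rw [conjAut_apply, AlgEquiv.one_apply, AlgEquiv.one_apply, S.tt]
  map_mul' := fun ρ σ => by
    apply AlgEquiv.ext
    intro k
    rw [AlgEquiv.mul_apply, conjAut_apply, conjAut_apply, conjAut_apply, AlgEquiv.mul_apply, S.tt]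

theorem fixed_or_inv [FiniteDimensional E K] (S : Setup L E C R K) :
    (∃ ρ : K ≃ₐ[E] K, ρ ≠ 1 ∧ ∀ k, ρ (S.t k) = S.t (ρ k)) ∨
      (∀ (ρ : K ≃ₐ[E] K) (k : K), ρ (S.t k) = S.t (ρ.symm k)) := by
  by_cases h : MonoidHom.FixedPointFree S.conjHom
  · right
    intro ρ k
    have h2 : (S.conjHom : (K ≃ₐ[E] K) → (K ≃ₐ[E] K))^[2] = _root_.id := by
      funext ρ
      show S.conjAut (S.conjAut ρ) = ρ
      apply AlgEquiv.ext
      intro k
      rw [conjAut_apply, conjAut_apply, S.tt, S.tt]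
    have h3 := MonoidHom.FixedPointFree.coe_eq_inv_of_sq_eq_one h h2
    have h4 : S.conjAut ρ = ρ⁻¹ := congrFun h3 ρ
    have h5 : S.t (ρ (S.t k)) = ρ.symm k := by
      rw [← conjAut_apply, h4]
      rfl
    rw [← h5, S.tt]
  · left
    unfold MonoidHom.FixedPointFree at h
    push Not at h
    obtain ⟨ρ, h1, h2⟩ := h
    refine ⟨ρ, h2, fun k => ?_⟩
    have h3 : S.conjAut ρ = ρ := h1
    have h4 : S.t (ρ (S.t k)) = ρ k := by
      rw [← conjAut_apply, h3]
    rw [← h4, S.tt]

/-- If all automorphisms are inverted there is no automorphism of order two. -/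
theorem odd_of_inv (S : Setup L E C R K)
    (hinv : ∀ (ρ : K ≃ₐ[E] K) (k : K), ρ (S.t k) = S.t (ρ.symm k))
    (hno : ¬ ∃ ρ : K ≃ₐ[E] K, ρ ≠ 1 ∧ ∀ k, ρ (S.t k) = S.t (ρ k))
    (ρ : K ≃ₐ[E] K) (hρ : ρ ≠ 1) : ρ ^ 2 ≠ 1 := by
  intro h2
  apply hno
  refine ⟨ρ, hρ, fun k => ?_⟩
  rw [hinv]
  congr 1
  have : ρ (ρ k) = k := by
    have := congrArg (fun σ : K ≃ₐ[E] K => σ k) h2
    rw [pow_two] at this
    exact this
  rw [AlgEquiv.symm_apply_eq]
  exact this.symm

/-- Descent of an automorphism commuting with the involution. -/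
theorem descend (S : Setup L E C R K) {M : Type*} [Field M] [Algebra L M]
    [Algebra.IsAlgebraic L M] (μ : M →+* K)
    (hμl : ∀ l : L, μ (algebraMap L M l) = algebraMap E K (algebraMap L E l))
    (hμt : ∀ m, S.t (μ m) = μ m) (hμfix : ∀ k, S.t k = k → ∃ m, μ m = k)
    (hgen : ∀ ρ : K ≃ₐ[E] K, (∀ m, ρ (μ m) = μ m) → ρ = 1)
    (ρ : K ≃ₐ[E] K) (hρ : ρ ≠ 1) (hcomm : ∀ k, ρ (S.t k) = S.t (ρ k)) :
    ∃ σ : M ≃ₐ[L] M, σ ≠ AlgEquiv.refl := by
  have hμinj : Function.Injective μ := μ.injective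
  have hex : ∀ m : M, ∃ m' : M, μ m' = ρ (μ m) := fun m => hμfix _ (by rw [← hcomm, hμt])
  choose f hf using hex
  let φ : M →ₐ[L] M :=
    { toFun := f
      map_one' := hμinj (by rw [hf, map_one, map_one])
      map_mul' := fun a b => hμinj (by rw [hf, map_mul, map_mul, map_mul, hf, hf])
      map_zero' := hμinj (by rw [hf, map_zero, map_zero])
      map_add' := fun a b => hμinj (by rw [hf, map_add, map_add, map_add, hf, hf])
      commutes' := fun l => hμinj (by rw [hf, hμl, AlgEquiv.commutes]) }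
  refine ⟨AlgEquiv.ofBijective φ (Algebra.IsAlgebraic.algHom_bijective φ), ?_⟩
  intro hcon
  apply hρ
  apply hgen
  intro m
  rw [← hf]
  congr 1
  exact congrArg (fun σ : M ≃ₐ[L] M => σ m) hcon

end Setup

end Pool.Agent.Helper61.DIH
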