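import Pool.Agent.Helper61.DIH.Tensor

/-!
Helpers for problem MP_249799_al: the dihedral theorem over the centre.
-/

set_option autoImplicit false

namespace Pool.Agent.Helper61.DIH

open Pool.Agent.Helper4.GAL Polynomial TensorProduct

section

variable {L E : Type*} [Field L] [Field E] [Algebra L E]

/-- The data of a quadratic Galois extension. -/
theorem exists_quad [FiniteDimensional L E] [IsGalois L E] (h2 : Module.finrank L E = 2) :
    ∃ (s : E ≃ₐ[L] E) (ε : E) (T N : L), (∀ e, s (s e) = e) ∧ s ε ≠ ε ∧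
      (∀ e, s e = e → ∃ l : L, algebraMap L E l = e) ∧
      (∀ e : E, ∃ a b : L, e = algebraMap L E a + algebraMap L E b * ε) ∧
      algebraMap L E T = ε + s ε ∧ algebraMap L E N = ε * s ε := by
  classical
  have hcard : Nat.card (E ≃ₐ[L] E) = 2 := by
    rw [← h2]
    exact IsGalois.card_aut_eq_finrank L E
  obtain ⟨s, hs1⟩ : ∃ s : E ≃ₐ[L] E, s ≠ 1 := by
    by_contra hcon
    push Not at hcon
    have : Nat.card (E ≃ₐ[L] E) = 1 := by
      rw [Nat.card_eq_one_iff_unique]
      exact ⟨⟨fun a b => by rw [hcon a, hcon b]⟩, ⟨1⟩⟩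
    omega
  have hss : ∀ e, s (s e) = e := by
    intro e
    have h3 : s ^ 2 = 1 := by
      rw [← hcard]
      exact pow_card_eq_one'
    have h4 := congrArg (fun f : E ≃ₐ[L] E => f e) h3
    rw [pow_two] at h4
    exact h4
  obtain ⟨ε, hε⟩ : ∃ ε : E, s ε ≠ ε := by
    by_contra hcon
    push Not at hcon
    exact hs1 (AlgEquiv.ext hcon)
  have hall : ∀ f : E ≃ₐ[L] E, f = 1 ∨ f = s := by
    intro f
    by_contra hcon
    push Not at hcon
    have h3 : ({1, s, f} : Finset (E ≃ₐ[L] E)).card = 3 := by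
      rw [Finset.card_eq_three]
      exact ⟨1, s, f, hs1.symm, hcon.1.symm, hcon.2.symm, rfl⟩
    have h4 := Finset.card_le_univ ({1, s, f} : Finset (E ≃ₐ[L] E))
    rw [h3, ← Nat.card_eq_fintype_card, hcard] at h4
    omega
  have hfix : ∀ e, s e = e → ∃ l : L, algebraMap L E l = e := by
    intro e he
    have h3 : e ∈ Set.range (algebraMap L E) := by
      rw [IsGalois.mem_range_algebraMap_iff_fixed]
      intro f
      rcases hall f with rfl | rfl
      · rfl
      · exact he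
    exact h3
  have hd : ε - s ε ≠ 0 := sub_ne_zero.2 hε.symm
  obtain ⟨T, hT⟩ := hfix (ε + s ε) (by rw [map_add, hss, add_comm])
  obtain ⟨N, hN⟩ := hfix (ε * s ε) (by rw [map_mul, hss, mul_comm])
  refine ⟨s, ε, T, N, hss, hε, hfix, ?_, hT, hN⟩
  intro e
  have hd' : s ε - ε ≠ 0 := sub_ne_zero.2 hε
  obtain ⟨b, hb⟩ := hfix ((e - s e) / (ε - s ε)) (by
    rw [map_div₀, map_sub, map_sub, hss, hss, ← neg_sub e, ← neg_sub ε, neg_div_neg_eq])
  have hb2 : algebraMap L E b * (ε - s ε) = e - s e := by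
    rw [hb, div_mul_cancel₀ _ hd]
  obtain ⟨a, ha⟩ := hfix (e - algebraMap L E b * ε) (by
    rw [map_sub, map_mul, AlgEquiv.commutes]
    linear_combination hb2)
  refine ⟨a, b, ?_⟩
  rw [ha]
  ring

theorem primitive_of_prime {l : ℕ} (hl : l.Prime) (η : L) (h : η ^ l = 1) (h1 : η ≠ 1) :
    IsPrimitiveRoot η l := by
  have : Fact l.Prime := ⟨hl⟩
  exact IsPrimitiveRoot.iff_orderOf.2 (orderOf_eq_prime h h1)

/-- The theorem over the centre, for a quadratic extension which remains a field. -/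
theorem good_of_setup {C R K M : Type*} [DivisionRing C] [Algebra L C] [DivisionRing R]
    [Algebra E R] [Field K] [Algebra E K] [FiniteDimensional E K]
    (hcen : ∀ x : C, (∀ y : C, y * x = x * y) → x ∈ Set.range (algebraMap L C))
    (halg : Algebra.IsAlgebraic L C) (S : Setup L E C R K) (ε : E) (hε : S.s ε ≠ ε)
    [Field M] [Algebra L M] [Algebra.IsAlgebraic L M] (ι : M →ₐ[L] C) (μ : M →+* K)
    (hμl : ∀ l : L, μ (algebraMap L M l) = algebraMap E K (algebraMap L E l))
    (hμt : ∀ m, S.t (μ m) = μ m) (hμfix : ∀ k, S.t k = k → ∃ m, μ m = k)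
    (hgen : ∀ ρ : K ≃ₐ[E] K, (∀ m, ρ (μ m) = μ m) → ρ = 1)
    (l : ℕ) (hl : l.Prime) (hroot : (l : L) = 0 ∨ ∃ ζ : E, IsPrimitiveRoot ζ l)
    (ρ : K ≃ₐ[E] K) (hρ : ρ ≠ 1) (hρl : ρ ^ l = 1) : Good L C := by
  by_cases hfixed : ∃ ρ : K ≃ₐ[E] K, ρ ≠ 1 ∧ ∀ k, ρ (S.t k) = S.t (ρ k)
  · obtain ⟨ρ', h1, h2⟩ := hfixed
    obtain ⟨σ, hσ⟩ := S.descend μ hμl hμt hμfix hgen ρ' h1 h2
    refine good_of_tower (F := L) (B := L) (E := C) (AlgHom.id L C) ?_
    -- the image of `M`
    have hinj : Function.Injective ι := ι.toRingHom.injective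
    let e : M ≃ₐ[L] ι.range := AlgEquiv.ofInjective ι hinj
    refine ⟨ι.range, ?_, e.symm.trans (σ.trans e), ?_⟩
    · rintro _ ⟨x, rfl⟩ _ ⟨y, rfl⟩
      show ι x * ι y = ι y * ι x
      rw [← map_mul, mul_comm, map_mul]
    · intro hcon
      apply hσ
      apply AlgEquiv.ext
      intro x
      have h3 : (e.symm.trans (σ.trans e)) (e x) = e x := by rw [hcon]; rfl
      have h4 : (e.symm.trans (σ.trans e)) (e x) = e (σ x) := by
        rw [AlgEquiv.trans_apply, AlgEquiv.trans_apply, AlgEquiv.symm_apply_apply]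
      rw [h4] at h3
      exact e.injective h3
  · have hinv : ∀ (ρ : K ≃ₐ[E] K) (k : K), ρ (S.t k) = S.t (ρ.symm k) := by
      rcases S.fixed_or_inv with h | h
      · exact absurd h hfixed
      · exact h
    have hl2 : l ≠ 2 := by
      rintro rfl
      exact S.odd_of_inv hinv hfixed ρ hρ hρl
    rcases hroot with h0 | ⟨ζ, hζ⟩
    · have hE0 : (l : E) = 0 := by
        rw [← map_natCast (algebraMap L E), h0, map_zero]
      have : CharP E l := (CharP.charP_iff_prime_eq_zero hl).2 hE0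
      exact S.artinSchreier halg ρ hρ l hl hl2 hρl ε hε (hinv ρ)
    · by_cases hη : ζ * S.s ζ = 1
      · exact S.kummer_twist hcen halg ρ hρ l hl.pos hρl ζ hζ (eq_inv_of_mul_eq_one_right hη) ε hε
          (hinv ρ)
      · obtain ⟨η, hη'⟩ := S.fixs (ζ * S.s ζ) (by rw [map_mul, S.ss, mul_comm])
        have h1 : η ^ l = 1 := by
          apply (algebraMap L E).injective
          rw [map_pow, hη', mul_pow, ← map_pow, hζ.pow_eq_one, map_one, map_one, mul_one]
        have h2 : η ≠ 1 := by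
          intro h3
          apply hη
          rw [← hη', h3, map_one]
        exact S.kummer halg ρ hρ l (hl.odd_of_ne_two hl2) hρl η (primitive_of_prime hl η h1 h2)
          (hinv ρ)

end

end Pool.Agent.Helper61.DIH
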