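import Pool.Agent.Helper61.DIH.KQuad

/-!
Helpers for problem MP_249799_al: the dihedral theorem over the centre, with a root of unity of
degree at most two.
-/

set_option autoImplicit false

namespace Pool.Agent.Helper61.DIH

open Pool.Agent.Helper4.GAL Polynomial TensorProduct

section

variable {L E : Type*} [Field L] [Field E] [Algebra L E]

theorem quad_repr (s : E ≃ₐ[L] E) (hss : ∀ e, s (s e) = e)
    (hfix : ∀ e, s e = e → ∃ l : L, algebraMap L E l = e) (ε : E) (hε : s ε ≠ ε) (e : E) :
    ∃ a b : L, e = algebraMap L E a + algebraMap L E b * ε := by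
  have hd : ε - s ε ≠ 0 := sub_ne_zero.2 hε.symm
  obtain ⟨b, hb⟩ := hfix ((e - s e) / (ε - s ε)) (by
    rw [map_div₀, map_sub, map_sub, hss, hss, ← neg_sub e, ← neg_sub ε, neg_div_neg_eq])
  have hb2 : algebraMap L E b * (ε - s ε) = e - s e := by
    rw [hb, div_mul_cancel₀ _ hd]
  obtain ⟨a, ha⟩ := hfix (e - algebraMap L E b * ε) (by
    rw [map_sub, map_mul, AlgEquiv.commutes]
    linear_combination hb2)
  refine ⟨a, b, ?_⟩
  rw [ha]
  ring

/-- The root of unity is in `L`, or of degree two over `L` with its inverse as conjugate. -/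
theorem root_cases (l : ℕ) (hl : l.Prime) (hl0 : (l : L) ≠ 0)
    (hroot : ∀ g : L[X], Irreducible g → g ∣ X ^ l - 1 → g.natDegree ≤ 2) :
    (∃ η : L, IsPrimitiveRoot η l) ∨
    ∃ (s' : CyclotomicField l L ≃ₐ[L] CyclotomicField l L) (ζ : CyclotomicField l L) (T : L),
      IsPrimitiveRoot ζ l ∧ s' ζ = ζ⁻¹ ∧ s' ζ ≠ ζ ∧ (∀ e, s' (s' e) = e) ∧
      (∀ e, s' e = e → ∃ x : L, algebraMap L (CyclotomicField l L) x = e) ∧
      algebraMap L (CyclotomicField l L) T = ζ + s' ζ ∧
      minpoly L ζ = X ^ 2 - C T * X + 1 := by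
  have : NeZero l := ⟨hl.ne_zero⟩
  have : NeZero (l : L) := ⟨hl0⟩
  have hcyc : IsCyclotomicExtension {l} L (CyclotomicField l L) := inferInstance
  set ζ := IsCyclotomicExtension.zeta l L (CyclotomicField l L) with hζd
  have hζ : IsPrimitiveRoot ζ l := IsCyclotomicExtension.zeta_spec l L (CyclotomicField l L)
  have hgal : IsGalois L (CyclotomicField l L) := IsCyclotomicExtension.isGalois {l} L _
  have hfin : FiniteDimensional L (CyclotomicField l L) :=
    IsCyclotomicExtension.finiteDimensional {l} L _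
  have hint : IsIntegral L ζ := IsIntegral.of_finite L ζ
  have hinjL : Function.Injective (algebraMap L (CyclotomicField l L)) :=
    (algebraMap L (CyclotomicField l L)).injective
  have hrank : Module.finrank L (CyclotomicField l L) = (minpoly L ζ).natDegree := by
    have h1 := (hζ.powerBasis L).natDegree_minpoly
    rw [IsPrimitiveRoot.powerBasis_gen] at h1
    rw [(hζ.powerBasis L).finrank, h1]
  have hdeg : (minpoly L ζ).natDegree ≤ 2 := by
    refine hroot _ (minpoly.irreducible hint) (minpoly.dvd L ζ ?_)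
    rw [map_sub, map_pow, aeval_X, map_one, hζ.pow_eq_one, sub_self]
  by_cases hmem : ζ ∈ (algebraMap L (CyclotomicField l L)).range
  · left
    obtain ⟨η, hη⟩ := hmem
    refine ⟨η, ?_⟩
    rw [← hη] at hζ
    exact hζ.of_map_of_injective hinjL
  · have h2 : 2 ≤ (minpoly L ζ).natDegree := (minpoly.two_le_natDegree_iff hint).2 hmem
    have hrank2 : Module.finrank L (CyclotomicField l L) = 2 := by omega
    obtain ⟨s', ε, T₀, N₀, hss, hε, hfix, hrep, hT₀, hN₀⟩ :=
      exists_quad (L := L) (E := CyclotomicField l L) hrank2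
    have hsζ : s' ζ ≠ ζ := fun h => hmem (hfix ζ h)
    by_cases hη : ζ * s' ζ = 1
    · right
      have hinv : s' ζ = ζ⁻¹ := eq_inv_of_mul_eq_one_right hη
      obtain ⟨T, hT⟩ := hfix (ζ + s' ζ) (by rw [map_add, hss, add_comm])
      refine ⟨s', ζ, T, hζ, hinv, hsζ, hss, hfix, hT, ?_⟩
      have hmonic : (X ^ 2 - C T * X + 1 : L[X]).Monic := by
        have h3 : (X ^ 2 - C T * X + 1 : L[X]) = X ^ 2 - (C T * X - 1) := by ring
        rw [h3]
        refine monic_X_pow_sub ?_
        have h4 : (C T * X - 1 : L[X]) = C T * X + C (-1) := by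
          rw [map_neg, C_1]
          ring
        rw [h4]
        have h5 : (C T * X + C (-1) : L[X]).degree ≤ 1 := degree_linear_le
        exact lt_of_le_of_lt h5 (by norm_num)
      have hroot0 : aeval ζ (X ^ 2 - C T * X + 1 : L[X]) = 0 := by
        rw [map_add, map_sub, map_mul, map_pow, aeval_X, aeval_C, map_one, hT]
        linear_combination - hη
      have hnd : (X ^ 2 - C T * X + 1 : L[X]).natDegree ≤ 2 := by
        compute_degree
      exact (eq_of_monic_of_dvd_of_natDegree_le (minpoly.monic hint) hmonic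
        (minpoly.dvd L ζ hroot0) (hnd.trans h2)).symm
    · left
      obtain ⟨η, hη'⟩ := hfix (ζ * s' ζ) (by rw [map_mul, hss, mul_comm])
      refine ⟨η, primitive_of_prime hl η ?_ ?_⟩
      · apply hinjL
        rw [map_pow, hη', mul_pow, ← map_pow, hζ.pow_eq_one, map_one, map_one, mul_one]
      · intro h3
        apply hη
        rw [← hη', h3, map_one]

/-- A commutative subfield with a nontrivial automorphism. -/
theorem good_of_aut {C M : Type*} [DivisionRing C] [Algebra L C] [Field M] [Algebra L M]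
    (ι : M →ₐ[L] C) (σ : M ≃ₐ[L] M) (hσ : σ ≠ AlgEquiv.refl) : Good L C := by
  have hinj : Function.Injective ι := ι.toRingHom.injective
  let e : M ≃ₐ[L] ι.range := AlgEquiv.ofInjective ι hinj
  refine ⟨ι.range, ?_, e.symm.trans (σ.trans e), ?_⟩
  · rintro _ ⟨x, rfl⟩ _ ⟨y, rfl⟩
    show ι x * ι y = ι y * ι x
    rw [← map_mul, mul_comm, map_mul]
  · intro hcon
    apply hσ
    apply AlgEquiv.ext
    intro x
    have h3 : (e.symm.trans (σ.trans e)) (e x) = e x := by rw [hcon]; rfl
    have h4 : (e.symm.trans (σ.trans e)) (e x) = e (σ x) := by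
      rw [AlgEquiv.trans_apply, AlgEquiv.trans_apply, AlgEquiv.symm_apply_apply]
    rw [h4] at h3
    exact e.injective h3

theorem good_of_setup2 {C R K M : Type*} [DivisionRing C] [Algebra L C] [DivisionRing R]
    [Algebra E R] [Field K] [Algebra E K] [FiniteDimensional E K] [Algebra.IsSeparable E K]
    [Algebra L R] [IsScalarTower L E R] [Algebra L K] [IsScalarTower L E K]
    (hcen : ∀ x : C, (∀ y : C, y * x = x * y) → x ∈ Set.range (algebraMap L C))
    (halg : Algebra.IsAlgebraic L C) (S : Setup L E C R K) (ε : E) (hε : S.s ε ≠ ε)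
    [Field M] [Algebra L M] [Algebra.IsAlgebraic L M] (ι : M →ₐ[L] C) (μ : M →+* K)
    (hμl : ∀ l : L, μ (algebraMap L M l) = algebraMap E K (algebraMap L E l))
    (hμt : ∀ m, S.t (μ m) = μ m) (hμfix : ∀ k, S.t k = k → ∃ m, μ m = k)
    (hgen : ∀ ρ : K ≃ₐ[E] K, (∀ m, ρ (μ m) = μ m) → ρ = 1)
    (l : ℕ) (hl : l.Prime)
    (hroot : ∀ g : L[X], Irreducible g → g ∣ X ^ l - 1 → g.natDegree ≤ 2)
    (ρ : K ≃ₐ[E] K) (hρ : ρ ≠ 1) (hρl : ρ ^ l = 1) : Good L C := by
  by_cases hl0 : (l : L) = 0
  · exact good_of_setup hcen halg S ε hε ι μ hμl hμt hμfix hgen l hl (Or.inl hl0) ρ hρ hρl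
  rcases root_cases l hl hl0 hroot with ⟨η, hη⟩ | ⟨s', ζ, T, hζ, hsζ, hsne, hss', hfix', hT, hmin⟩
  · exact good_of_setup hcen halg S ε hε ι μ hμl hμt hμfix hgen l hl
      (Or.inr ⟨algebraMap L E η, hη.map_of_injective (algebraMap L E).injective⟩) ρ hρ hρl
  by_cases hfixed : ∃ ρ : K ≃ₐ[E] K, ρ ≠ 1 ∧ ∀ k, ρ (S.t k) = S.t (ρ k)
  · obtain ⟨ρ', h1, h2⟩ := hfixed
    obtain ⟨σ, hσ⟩ := S.descend μ hμl hμt hμfix hgen ρ' h1 h2
    exact good_of_aut ι σ hσ
  · have hinv : ∀ (ρ : K ≃ₐ[E] K) (k : K), ρ (S.t k) = S.t (ρ.symm k) := by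
      rcases S.fixed_or_inv with h | h
      · exact absurd h hfixed
      · exact h
    have hl2 : l ≠ 2 := by
      rintro rfl
      exact S.odd_of_inv hinv hfixed ρ hρ hρl
    have hN : algebraMap L (CyclotomicField l L) 1 = ζ * s' ζ := by
      rw [hsζ, map_one, mul_inv_cancel₀]
      intro h0
      rw [h0] at hζ
      exact (hζ.ne_zero hl.ne_zero) rfl
    by_cases hquad : ∀ r : R, r * r + algebraMap L R T * r + algebraMap L R 1 ≠ 0
    · exact S.kummer_quad hcen halg s' hss' ζ hsne (quad_repr s' hss' hfix' ζ hsne) hfix' T 1 hT hN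
        hquad l (hl.odd_of_ne_two hl2) ζ hζ hsζ ρ hρ hρl (hinv ρ)
    · push Not at hquad
      obtain ⟨r, hr⟩ := hquad
      by_cases hrE : r ∈ Set.range (algebraMap E R)
      · obtain ⟨e, he⟩ := hrE
        -- `-e` is a primitive root of unity in `E`
        have h1 : e * e + algebraMap L E T * e + 1 = 0 := by
          apply (algebraMap E R).injective
          rw [map_add, map_add, map_mul, map_mul, map_one, map_zero, he,
            ← IsScalarTower.algebraMap_apply L E R]
          rw [map_one] at hr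
          exact hr
        have h2 : aeval (-e) (minpoly L ζ) = 0 := by
          rw [hmin, map_add, map_sub, map_mul, map_pow, aeval_X, aeval_C, map_one]
          linear_combination h1
        have h3 : minpoly L ζ ∣ X ^ l - 1 := by
          apply minpoly.dvd
          rw [map_sub, map_pow, aeval_X, map_one, hζ.pow_eq_one, sub_self]
        have h4 : (-e) ^ l = 1 := by
          obtain ⟨g, hg⟩ := h3
          have h5 := congrArg (aeval (-e)) hg
          rw [map_mul, h2, zero_mul, map_sub, map_pow, aeval_X, map_one] at h5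
          exact sub_eq_zero.1 h5
        have h5 : (-e) ≠ 1 := by
          intro h0
          rw [h0] at h2
          rw [hmin, map_add, map_sub, map_mul, map_pow, aeval_X, aeval_C, map_one] at h2
          have h6 : T = 2 := by
            apply (algebraMap L E).injective
            rw [map_ofNat]
            linear_combination - h2
          rw [h6, map_ofNat, hsζ] at hT
          have hζ0 : ζ ≠ 0 := hζ.ne_zero hl.ne_zero
          have h7 : (ζ - 1) * (ζ - 1) = 0 := by
            have h8 : 2 * ζ = ζ * ζ + 1 := by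
              rw [hT, add_mul, inv_mul_cancel₀ hζ0]
            linear_combination - h8
          have h8 : ζ = 1 := by
            rcases mul_eq_zero.1 h7 with h | h <;> exact sub_eq_zero.1 h
          exact hζ.ne_one hl.one_lt h8
        exact good_of_setup hcen halg S ε hε ι μ hμl hμt hμfix hgen l hl
          (Or.inr ⟨-e, primitive_of_prime hl (-e) h4 h5⟩) ρ hρ hρl
      · refine S.quad_elt hcen halg ε hε r hrE (-T) 1 ?_
        rw [map_neg, map_neg, ← IsScalarTower.algebraMap_apply L E R,
          ← IsScalarTower.algebraMap_apply L E R]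
        linear_combination (norm := noncomm_ring) hr

end

end Pool.Agent.Helper61.DIH
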