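import Pool.Agent.Helper61.DIH.Core

/-!
Helpers for problem MP_249799_al: Dickson's theorem on conjugate elements, for an element that is
algebraic over the centre of a division ring of arbitrary dimension.
-/

set_option autoImplicit false

namespace Pool.Agent.Helper61.DIH

open Pool.Agent.Helper4.GAL Polynomial

section

variable {F D : Type*} [Field F] [DivisionRing D] [Algebra F D]

/-- Divided differences with a left element `a'` and a right element `a`. -/
theorem exists_trace2 (a a' : D) (ha : IsIntegral F a) (ha' : aeval a' (minpoly F a) = 0) :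
    ∃ Q : ℕ → D, Q (minpoly F a).natDegree = 1 ∧
      ∀ x : D, a' * (∑ j ∈ Finset.range (minpoly F a).natDegree, Q (j + 1) * x * a ^ j)
        = (∑ j ∈ Finset.range (minpoly F a).natDegree, Q (j + 1) * x * a ^ j) * a := by
  set f := minpoly F a with hf
  set n := f.natDegree with hn
  let Q : ℕ → D := fun j => ∑ i ∈ Finset.range (n + 1 - j), f.coeff (i + j) • a' ^ i
  have hQ : ∀ j, j ≤ n → Q j = a' * Q (j + 1) + algebraMap F D (f.coeff j) := by
    intro j hj
    show ∑ i ∈ Finset.range (n + 1 - j), f.coeff (i + j) • a' ^ i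
      = a' * (∑ i ∈ Finset.range (n + 1 - (j + 1)), f.coeff (i + (j + 1)) • a' ^ i) + _
    have : n + 1 - j = (n + 1 - (j + 1)) + 1 := by omega
    rw [this, Finset.sum_range_succ', Finset.mul_sum]
    congr 1
    · refine Finset.sum_congr rfl fun i _ => ?_
      rw [mul_smul_comm, pow_succ', add_assoc i 1 j, add_comm 1 j]
    · rw [pow_zero, Algebra.smul_def, mul_one, zero_add]
  have hQ0 : Q 0 = 0 := by
    show ∑ i ∈ Finset.range (n + 1 - 0), f.coeff (i + 0) • a' ^ i = 0
    rw [aeval_eq_sum_range] at ha'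
    exact ha'
  have hQn : Q n = 1 := by
    show ∑ i ∈ Finset.range (n + 1 - n), f.coeff (i + n) • a' ^ i = 1
    have h1 : n + 1 - n = 1 := by omega
    rw [h1, Finset.sum_range_one, zero_add, pow_zero]
    have : f.coeff n = 1 := (minpoly.monic ha)
    rw [this, one_smul]
  refine ⟨Q, hQn, fun x => ?_⟩
  rw [← sub_eq_zero, Finset.mul_sum, Finset.sum_mul, ← Finset.sum_sub_distrib]
  have e1 : ∀ j ∈ Finset.range n, a' * (Q (j + 1) * x * a ^ j) - Q (j + 1) * x * a ^ j * a
      = (Q j * x * a ^ j - Q (j + 1) * x * a ^ (j + 1)) - x * (f.coeff j • a ^ j) := by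
    intro j hj
    have h2 := hQ j (Finset.mem_range.1 hj).le
    have h3 : a' * Q (j + 1) = Q j - algebraMap F D (f.coeff j) := by
      rw [h2]; abel
    have h4 : x * (f.coeff j • a ^ j) = algebraMap F D (f.coeff j) * x * a ^ j := by
      rw [Algebra.smul_def, ← mul_assoc, ← Algebra.commutes]
    rw [h4]
    calc a' * (Q (j + 1) * x * a ^ j) - Q (j + 1) * x * a ^ j * a
        = (a' * Q (j + 1)) * x * a ^ j - Q (j + 1) * x * (a ^ j * a) := by noncomm_ring
      _ = (Q j - algebraMap F D (f.coeff j)) * x * a ^ j - Q (j + 1) * x * a ^ (j + 1) := by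
          rw [h3, pow_succ]
      _ = _ := by
          rw [sub_mul, sub_mul]; abel
  rw [Finset.sum_congr rfl e1, Finset.sum_sub_distrib, Finset.sum_range_sub', ← Finset.mul_sum,
    hQ0, hQn]
  have h5 := minpoly.aeval F a
  rw [aeval_eq_sum_range, Finset.sum_range_succ] at h5
  have h6 : (minpoly F a).coeff (minpoly F a).natDegree = 1 := (minpoly.monic ha)
  rw [h6, one_smul] at h5
  have h7 : (∑ i ∈ Finset.range n, f.coeff i • a ^ i) = - a ^ n := eq_neg_of_add_eq_zero_left h5
  rw [h7]
  noncomm_ring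

/-- Dickson's theorem. -/
theorem exists_conj (hcen : ∀ x : D, (∀ y : D, y * x = x * y) → x ∈ Set.range (algebraMap F D))
    (a a' : D) (ha : IsIntegral F a) (ha' : aeval a' (minpoly F a) = 0) :
    ∃ y : D, y ≠ 0 ∧ y * a = a' * y := by
  obtain ⟨Q, hQn, hQ⟩ := exists_trace2 (F := F) a a' ha ha'
  set n := (minpoly F a).natDegree with hn
  have hnpos : 0 < n := minpoly.natDegree_pos ha
  have hpow := linearIndependent_pow (K := F) a
  by_contra hcon
  push Not at hcon
  have hzero : ∀ x : D, (∑ j ∈ Finset.range n, Q (j + 1) * x * a ^ j) = 0 := by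
    intro x
    by_contra h0
    exact hcon _ h0 (hQ x).symm
  have hrel := indep hcen (fun j : Fin n => a ^ (j : ℕ)) hpow Finset.univ
    (fun j => Q ((j : ℕ) + 1)) ?_ ⟨n - 1, by omega⟩ (Finset.mem_univ _)
  · have : Q (n - 1 + 1) = 0 := hrel
    rw [Nat.sub_add_cancel hnpos, hQn] at this
    exact one_ne_zero this
  · intro x
    rw [Fin.sum_univ_eq_sum_range (fun j => Q (j + 1) * x * a ^ j) n]
    exact hzero x

end

end Pool.Agent.Helper61.DIH
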