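import Pool.Agent.Helper61.DIH.Ident

/-!
Helpers for problem MP_249799_al: descent of a `q`-commuting pair through an involutive
automorphism.
-/

set_option autoImplicit false

namespace Pool.Agent.Helper61.DIH

open Pool.Agent.Helper4.GAL Polynomial

section

variable {F D R : Type*} [Field F] [DivisionRing D] [Algebra F D] [DivisionRing R]

/-- Kummer case. -/
theorem core_kummer (halg : Algebra.IsAlgebraic F D) (j : D →+* R) (τ : R →+* R)
    (hfix : ∀ r : R, τ r = r → ∃ d : D, j d = r) (z : F) (hz0 : z ≠ 0) (hz2 : z * z ≠ 1)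
    (hzc : ∀ r : R, j (algebraMap F D z) * r = r * j (algebraMap F D z))
    (x q : R) (hx : x ≠ 0) (hq : q ≠ 0)
    (h : q * x = j (algebraMap F D z) * x * q) (hτx : τ x = x⁻¹) (hτq : τ q = q⁻¹) :
    Good F D := by
  set Z := j (algebraMap F D z) with hZ
  have hjinj : Function.Injective j := j.injective
  have hZ0 : Z ≠ 0 := by
    rw [hZ]
    intro h0
    apply hz0
    apply (algebraMap F D).injective
    apply hjinj
    rw [h0, map_zero, map_zero]
  have hZ2 : Z * Z ≠ 1 := by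
    intro h0
    apply hz2
    apply (algebraMap F D).injective
    apply hjinj
    rw [map_mul, map_mul, map_one, map_one]
    exact h0
  have hxx : x * x⁻¹ = 1 := mul_inv_cancel₀ hx
  have hqq : q * q⁻¹ = 1 := mul_inv_cancel₀ hq
  have hqx2 : q * (x * x) = Z * Z * (x * x) * q := by
    linear_combination (norm := noncomm_ring) h * x + Z * x * h - Z * hzc x * x * q
  have hq2x : (q * q) * x = Z * Z * (x * (q * q)) := by
    linear_combination (norm := noncomm_ring) q * h + h * q * 0 - hzc q * x * q + Z * h * q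
  have hA : x - x⁻¹ ≠ 0 := by
    intro h0
    have h1 : x * x = 1 := by
      nth_rw 2 [sub_eq_zero.1 h0]
      exact hxx
    rw [h1, mul_one, mul_one] at hqx2
    apply hZ2
    exact (mul_right_cancel₀ hq (by rw [one_mul]; exact hqx2)).symm
  have hB : q - q⁻¹ ≠ 0 := by
    intro h0
    have h1 : q * q = 1 := by
      nth_rw 2 [sub_eq_zero.1 h0]
      exact hqq
    rw [h1, mul_one, one_mul] at hq2x
    apply hZ2
    exact (mul_right_cancel₀ hx (by rw [one_mul]; exact hq2x)).symm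
  have hC : x * q - x⁻¹ * q⁻¹ ≠ 0 := by
    intro h0
    have h1 : x * q = x⁻¹ * q⁻¹ := sub_eq_zero.1 h0
    have h2 : x * x * (q * q) = 1 := by
      calc x * x * (q * q) = x * (x * q) * q := by noncomm_ring
        _ = (x * x⁻¹) * (q⁻¹ * q) := by rw [h1]; noncomm_ring
        _ = 1 := by rw [hxx, inv_mul_cancel₀ hq, one_mul]
    have h3 : q * q = (x * x)⁻¹ := eq_inv_of_mul_eq_one_right h2
    have h4 : (q * q) * x = x * (q * q) := by
      rw [h3]
      exact inv_comm _ _ (by noncomm_ring)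
    rw [h4] at hq2x
    apply hZ2
    have h5 : x * (q * q) ≠ 0 := mul_ne_zero hx (mul_ne_zero hq hq)
    exact (mul_right_cancel₀ h5 (by rw [one_mul]; exact hq2x)).symm
  have hAτ : τ (x - x⁻¹) = -(x - x⁻¹) := by
    rw [map_sub, map_inv₀, hτx, inv_inv, neg_sub]
  have hBτ : τ (q - q⁻¹) = -(q - q⁻¹) := by
    rw [map_sub, map_inv₀, hτq, inv_inv, neg_sub]
  have hCτ : τ (x * q - x⁻¹ * q⁻¹) = -(x * q - x⁻¹ * q⁻¹) := by
    rw [map_sub, map_mul, map_mul, map_inv₀, map_inv₀, hτx, hτq, inv_inv, inv_inv, neg_sub]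
  obtain ⟨u, hu⟩ := hfix ((x - x⁻¹)⁻¹ * (q - q⁻¹)) (by
    rw [map_mul, map_inv₀, hAτ, hBτ, inv_neg, neg_mul_neg])
  obtain ⟨v, hv⟩ := hfix ((x - x⁻¹)⁻¹ * (x * q - x⁻¹ * q⁻¹)) (by
    rw [map_mul, map_inv₀, hAτ, hCτ, inv_neg, neg_mul_neg])
  have hu0 : u ≠ 0 := by
    intro h0
    rw [h0, map_zero] at hu
    exact mul_ne_zero (inv_ne_zero hA) hB hu.symm
  have hv0 : v ≠ 0 := by
    intro h0
    rw [h0, map_zero] at hv
    exact mul_ne_zero (inv_ne_zero hA) hC hv.symm
  have key := key_id x q Z hx hq hZ0 hzc h hA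
  rw [← hu, ← hv, hZ, ← map_mul, ← map_mul, ← map_mul] at key
  have key2 : u * v = algebraMap F D z * (v * u) := hjinj key
  refine good_of_conj_one halg v (algebraMap F D z * v) u hu0 ?_ ?_ ?_
  · rw [key2, mul_assoc]
  · exact Subalgebra.mul_mem _ (Subalgebra.algebraMap_mem _ _)
      (Algebra.self_mem_adjoin_singleton F v)
  · intro hcon
    apply hz2
    have h1 : algebraMap F D z = 1 := mul_right_cancel₀ hv0 (by rw [one_mul]; exact hcon)
    apply (algebraMap F D).injective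
    rw [map_mul, h1, one_mul, map_one]

/-- Artin-Schreier case. -/
theorem core_AS (halg : Algebra.IsAlgebraic F D) (j : D →+* R) (τ : R →+* R)
    (hfix : ∀ r : R, τ r = r → ∃ d : D, j d = r) (h2 : (2 : R) ≠ 0)
    (δ : R) (hδ0 : δ ≠ 0) (hδ : ∀ r : R, δ * r = r * δ) (hτδ : τ δ = - δ)
    (x q : R) (hq : q ≠ 0)
    (h : q * x = (x + 2) * q) (hτx : τ x = - x) (hτq : τ q = q⁻¹) :
    Good F D := by
  have hjinj : Function.Injective j := j.injective
  have hqq : q * q⁻¹ = 1 := mul_inv_cancel₀ hq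
  have hqq' : q⁻¹ * q = 1 := inv_mul_cancel₀ hq
  have hq1 : q - 1 ≠ 0 := by
    intro h0
    rw [sub_eq_zero.1 h0, one_mul, mul_one] at h
    exact h2 (left_eq_add.1 h)
  have hq2 : q + 1 ≠ 0 := by
    intro h0
    rw [eq_neg_of_add_eq_zero_left h0] at h
    apply h2
    have h3 : -1 * x = -(x + 2) := by rw [h]; noncomm_ring
    have h4 : x + 2 = x := by
      rw [neg_one_mul] at h3
      exact (neg_injective h3).symm
    exact add_eq_left.1 h4
  set W := (q - q⁻¹) * x with hW
  set s := δ * ((q + 1) * (q - 1)⁻¹) with hs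
  have hs0 : s ≠ 0 := mul_ne_zero hδ0 (mul_ne_zero hq2 (inv_ne_zero hq1))
  have hWτ : τ W = W := by
    rw [hW, map_mul, map_sub, map_inv₀, hτq, hτx, inv_inv]
    noncomm_ring
  have hsτ : τ s = s := by
    rw [hs, map_mul, map_mul, map_inv₀, map_add, map_sub, map_one, hτδ, hτq]
    have e1 : q⁻¹ + 1 = (q + 1) * q⁻¹ := by
      rw [add_mul, hqq, one_mul, add_comm]
    have e2 : q⁻¹ - 1 = -((q - 1) * q⁻¹) := by
      rw [sub_mul, hqq, one_mul, neg_sub]
    rw [e1, e2, inv_neg, mul_inv_rev, inv_inv]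
    have e3 : -δ * ((q + 1) * q⁻¹ * -(q * (q - 1)⁻¹))
        = δ * ((q + 1) * (q⁻¹ * q) * (q - 1)⁻¹) := by noncomm_ring
    rw [e3, hqq', mul_one]
  obtain ⟨w, hw⟩ := hfix W hWτ
  obtain ⟨t, ht⟩ := hfix s hsτ
  have ht0 : t ≠ 0 := by
    intro h0
    rw [h0, map_zero] at ht
    exact hs0 ht.symm
  -- the commutation relation
  set b := (q - 1)⁻¹ with hb
  have hb1 : b * (q - 1) = 1 := inv_mul_cancel₀ hq1
  have hb2 : (q - 1) * b = 1 := mul_inv_cancel₀ hq1
  have hbq : b * q = q * b := inv_comm _ _ (by noncomm_ring)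
  have hbq' : b * q⁻¹ = q⁻¹ * b := by
    have := inv_comm q b hbq.symm
    exact this.symm
  have hxq : x * q = q * x - 2 * q := by
    rw [h]; noncomm_ring
  have hxb : x * b = b * x + 2 * q * b * b := by
    have e1 : b * (x * (q - 1)) * b = b * ((q - 1) * x - 2 * q) * b := by
      congr 2
      linear_combination (norm := noncomm_ring) hxq
    have e2 : b * (x * (q - 1)) * b = b * x := by
      rw [mul_assoc, mul_assoc, hb2, mul_one]
    rw [e2] at e1
    have e3 : b * ((q - 1) * x - 2 * q) * b = (b * (q - 1)) * x * b - 2 * (b * q) * b := by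
      noncomm_ring
    rw [e3, hb1, hbq] at e1
    rw [e1]
    noncomm_ring
  have hrel : W * ((q + 1) * b) = ((q + 1) * b) * (W + 4) := by
    have e1 : W * ((q + 1) * b) = (q - q⁻¹) * (x * q + x) * b := by
      rw [hW]; noncomm_ring
    rw [e1, hxq]
    have e2 : (q - q⁻¹) * (q * x - 2 * q + x) * b
        = (q - q⁻¹) * ((q + 1) * (x * b)) - 2 * (q * q - q⁻¹ * q) * b := by noncomm_ring
    rw [e2, hxb, hqq']
    have e3 : (q + 1) * b * (W + 4) = (q * q - (q * q⁻¹) + q - q⁻¹) * b * x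
        + 4 * (q + 1) * b := by
      rw [hW]
      have e4 : b * (q - q⁻¹) = (q - q⁻¹) * b := by
        rw [mul_sub, sub_mul, hbq, hbq']
      have e5 : (q + 1) * b * ((q - q⁻¹) * x + 4)
          = (q + 1) * (b * (q - q⁻¹)) * x + 4 * (q + 1) * b := by noncomm_ring
      rw [e5, e4]
      noncomm_ring
    rw [e3, hqq]
    have e6 : (q - q⁻¹) * ((q + 1) * (b * x + 2 * q * b * b)) - 2 * (q * q - 1) * b
        = (q * q + q - (q⁻¹ * q) - q⁻¹) * b * x
          + 2 * (q * q * q + q * q - (q⁻¹ * q) * q - (q⁻¹ * q)) * b * b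
          - 2 * (q * q - 1) * b := by noncomm_ring
    rw [e6, hqq']
    have e7 : (q * q * q + q * q - 1 * q - 1) * b * b = (q + 1) * (q + 1) * ((q - 1) * b) * b := by
      noncomm_ring
    have e8 : 2 * (q * q * q + q * q - 1 * q - 1) * b * b
        = 2 * ((q * q * q + q * q - 1 * q - 1) * b * b) := by noncomm_ring
    rw [e8, e7, hb2]
    noncomm_ring
  have hrel2 : W * s = s * (W + 4) := by
    rw [hs]
    calc W * (δ * ((q + 1) * b)) = (W * δ) * ((q + 1) * b) := by noncomm_ring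
      _ = δ * (W * ((q + 1) * b)) := by rw [← hδ W]; noncomm_ring
      _ = δ * ((q + 1) * b) * (W + 4) := by rw [hrel]; noncomm_ring
  rw [← hw, ← ht] at hrel2
  have hrel3 : w * t = t * (w + 4) := by
    apply hjinj
    rw [map_mul, map_mul, map_add, map_ofNat]
    exact hrel2
  have h4 : (4 : D) ≠ 0 := by
    intro h0
    have h5 : j 4 = 0 := by rw [h0, map_zero]
    rw [map_ofNat] at h5
    have h6 : (4 : R) = 2 * 2 := by norm_num
    rw [h6] at h5
    rcases mul_eq_zero.1 h5 with h7 | h7 <;> exact h2 h7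
  refine good_of_conj_one halg w (w + 4) t⁻¹ (inv_ne_zero ht0) ?_ ?_ ?_
  · have : t⁻¹ * (w * t) * t⁻¹ = t⁻¹ * (t * (w + 4)) * t⁻¹ := by rw [hrel3]
    rw [mul_assoc, mul_assoc, mul_inv_cancel₀ ht0, mul_one, ← mul_assoc, inv_mul_cancel₀ ht0,
      one_mul] at this
    exact this
  · have h5 : (4 : D) = algebraMap F D 4 := by rw [map_ofNat]
    rw [h5]
    exact Subalgebra.add_mem _ (Algebra.self_mem_adjoin_singleton F w)
      (Subalgebra.algebraMap_mem _ _)
  · intro hcon
    exact h4 (add_eq_left.1 hcon)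

end

end Pool.Agent.Helper61.DIH
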