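import Pool.Agent.Helper61.DIH.Conj

/-!
Helpers for problem MP_249799_al: eigenvectors of an automorphism of prime order of a commutative
algebra, in the Kummer case and in the Artin-Schreier case.
-/

set_option autoImplicit false

namespace Pool.Agent.Helper61.DIH

open Polynomial

section

variable {E K : Type*} [Field E]

theorem exists_eigen [AddCommGroup K] [Module E K] (T : Module.End E K) (S : Finset E) :
    ∀ w : K, w ≠ 0 → aeval T (∏ s ∈ S, (X - C s)) w = 0 →
      ∃ s ∈ S, ∃ m : K, m ≠ 0 ∧ T m = s • m := by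
  classical
  induction S using Finset.induction_on with
  | empty =>
    intro w hw h
    exfalso
    apply hw
    simpa using h
  | insert a S ha ih =>
    intro w hw h
    rw [Finset.prod_insert ha, map_mul, Module.End.mul_apply] at h
    by_cases h0 : aeval T (∏ s ∈ S, (X - C s)) w = 0
    · obtain ⟨s, hs, m, hm, hT⟩ := ih w hw h0
      exact ⟨s, Finset.mem_insert_of_mem hs, m, hm, hT⟩
    · refine ⟨a, Finset.mem_insert_self a S, _, h0, ?_⟩
      rw [map_sub, aeval_X, aeval_C, LinearMap.sub_apply, Module.algebraMap_end_apply,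
        sub_eq_zero] at h
      exact h

/-- Kummer case: an eigenvector with eigenvalue other than one. -/
theorem exists_eigen_kummer [Field K] [Algebra E K] (ρ : K ≃ₐ[E] K) (hρ : ρ ≠ 1) (l : ℕ)
    (hl : 0 < l) (hρl : ρ ^ l = 1) (ζ : E) (hζ : IsPrimitiveRoot ζ l) :
    ∃ s : E, s ^ l = 1 ∧ s ≠ 1 ∧ ∃ m : K, m ≠ 0 ∧ ρ m = s • m := by
  classical
  obtain ⟨u, hu⟩ : ∃ u : K, ρ u ≠ u := by
    by_contra hcon
    push Not at hcon
    exact hρ (AlgEquiv.ext hcon)
  let T : Module.End E K := ρ.toLinearMap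
  have hT : ∀ k, T k = ρ k := fun k => rfl
  have hTn : ∀ n : ℕ, ∀ k, (T ^ n) k = (ρ ^ n) k := by
    intro n
    induction n with
    | zero => intro k; rfl
    | succ n ih =>
      intro k
      rw [pow_succ, pow_succ, Module.End.mul_apply, ih]
      rfl
  have h1 : (1 : E) ∈ nthRootsFinset l (1 : E) := (mem_nthRootsFinset hl 1).2 (one_pow l)
  have hprod : (X ^ l - 1 : E[X]) = (X - C 1) * ∏ s ∈ (nthRootsFinset l (1 : E)).erase 1,
      (X - C s) := by
    rw [X_pow_sub_one_eq_prod hl hζ, Finset.mul_prod_erase _ (fun s => X - C s) h1]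
  have hw : ρ u - u ≠ 0 := fun h => hu (sub_eq_zero.1 h)
  obtain ⟨s, hs, m, hm, hTm⟩ := exists_eigen T ((nthRootsFinset l (1 : E)).erase 1)
    (ρ u - u) hw (by
      have h2 : ρ u - u = aeval T (X - C (1 : E)) u := by
        rw [map_sub, aeval_X, C_1, map_one]
        rfl
      rw [h2, ← Module.End.mul_apply, ← map_mul, mul_comm, ← hprod, map_sub, map_pow, aeval_X,
        map_one, LinearMap.sub_apply, hTn, hρl]
      simp)
  rw [Finset.mem_erase] at hs
  exact ⟨s, (mem_nthRootsFinset hl 1).1 hs.2, hs.1, m, hm, hTm⟩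

/-- Artin-Schreier case. -/
theorem exists_AS [Field K] [Algebra E K] (ρ : K ≃ₐ[E] K) (hρ : ρ ≠ 1) (l : ℕ)
    (hl : l.Prime) (hρl : ρ ^ l = 1) [CharP E l] :
    ∃ x : K, ρ x = x + 1 := by
  have : Fact l.Prime := ⟨hl⟩
  obtain ⟨u, hu⟩ : ∃ u : K, ρ u ≠ u := by
    by_contra hcon
    push Not at hcon
    exact hρ (AlgEquiv.ext hcon)
  let T : Module.End E K := ρ.toLinearMap
  have hT : ∀ k, T k = ρ k := fun k => rfl
  have hTn : ∀ n : ℕ, ∀ k, (T ^ n) k = (ρ ^ n) k := by
    intro n
    induction n with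
    | zero => intro k; rfl
    | succ n ih =>
      intro k
      rw [pow_succ, pow_succ, Module.End.mul_apply, ih]
      rfl
  have hCE : CharP (Module.End E K) l :=
    charP_of_injective_algebraMap (algebraMap E (Module.End E K)).injective l
  have hpow : ((T - 1) ^ l) u = 0 := by
    have h1 : (T - 1) ^ l = T ^ l - 1 ^ l :=
      sub_pow_char_of_commute (R := Module.End E K) (p := l) (Commute.one_right T)
    rw [h1, one_pow, LinearMap.sub_apply, hTn, hρl]
    simp
  have hex : ∃ k : ℕ, ((T - 1) ^ k) u = 0 := ⟨l, hpow⟩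
  classical
  set k := Nat.find hex with hk
  have hk0 : ((T - 1) ^ k) u = 0 := Nat.find_spec hex
  have hmin : ∀ m, m < k → ((T - 1) ^ m) u ≠ 0 := fun m hm => Nat.find_min hex hm
  have hk1 : k ≠ 0 := by
    intro h0
    rw [h0] at hk0
    have : u = 0 := by simpa using hk0
    rw [this, map_zero] at hu
    exact hu rfl
  have hk2 : k ≠ 1 := by
    intro h0
    rw [h0, pow_one, LinearMap.sub_apply] at hk0
    exact hu (sub_eq_zero.1 hk0)
  obtain ⟨m, hm⟩ : ∃ m, k = m + 2 := ⟨k - 2, by omega⟩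
  set w := ((T - 1) ^ m) u with hw
  set v := ((T - 1) ^ (m + 1)) u with hv
  have hv0 : v ≠ 0 := hmin (m + 1) (by omega)
  have h1 : ρ w - w = v := by
    rw [hv, pow_succ', Module.End.mul_apply, ← hw, LinearMap.sub_apply]
    rfl
  have h2 : ρ v - v = 0 := by
    have h3 : ((T - 1) ^ (m + 2)) u = ρ v - v := by
      rw [pow_succ', Module.End.mul_apply, ← hv, LinearMap.sub_apply]
      rfl
    rw [← h3, ← hm]
    exact hk0
  refine ⟨w / v, ?_⟩
  have h4 : ρ w = w + v := by rw [← h1]; ring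
  rw [map_div₀, h4, sub_eq_zero.1 h2, add_div, div_self hv0]

end

end Pool.Agent.Helper61.DIH
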