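import Pool.Agent.Helper61.DIH.QuadElt

/-!
Helpers for problem MP_249799_al: a Kummer element inverted by both involutions.
-/

set_option autoImplicit false

namespace Pool.Agent.Helper61.DIH

open Polynomial

theorem exists_x {L' K : Type*} [Field L'] [Field K] [Algebra L' K] (s' : L' →+* L')
    (t σ : K →+* K) (hss : ∀ e, s' (s' e) = e) (htt : ∀ k, t (t k) = k)
    (hσσ : ∀ k, σ (σ k) = k) (htσ : ∀ k, t (σ k) = σ (t k))
    (htL : ∀ e : L', t (algebraMap L' K e) = algebraMap L' K e)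
    (hσL : ∀ e : L', σ (algebraMap L' K e) = algebraMap L' K (s' e)) (ω : L') (hω : s' ω ≠ ω)
    (ρ : K ≃ₐ[L'] K) (hρ : ρ ≠ 1) (l : ℕ) (hl : 0 < l) (hρl : ρ ^ l = 1) (ζ : L')
    (hζ : IsPrimitiveRoot ζ l) (hsζ : s' ζ = ζ⁻¹) (hinv : ∀ k, ρ (t k) = t (ρ.symm k))
    (hρσ : ∀ k, ρ (σ k) = σ (ρ k)) :
    ∃ (s : L') (x : K), s ^ l = 1 ∧ s ≠ 1 ∧ s' s = s⁻¹ ∧ x ≠ 0 ∧
      ρ x = algebraMap L' K (s ^ 2) * x ∧ t x = x⁻¹ ∧ σ x = x⁻¹ := by
  have : NeZero l := ⟨hl.ne'⟩
  obtain ⟨s, hs, hs1, m, hm, hρm⟩ := exists_eigen_kummer ρ hρ l hl hρl ζ hζ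
  obtain ⟨i, -, hi⟩ := hζ.eq_pow_of_pow_eq_one hs
  have hs0 : s ≠ 0 := by
    intro h0
    rw [h0, zero_pow hl.ne'] at hs
    exact zero_ne_one hs
  have hss' : s' s = s⁻¹ := by rw [← hi, map_pow, hsζ, inv_pow]
  rw [Algebra.smul_def] at hρm
  have hsymm : ∀ k : K, ρ k = algebraMap L' K s * k → ρ.symm k = algebraMap L' K s⁻¹ * k := by
    intro k hk
    have h1 : ρ.symm (algebraMap L' K s * k) = k := by rw [← hk, AlgEquiv.symm_apply_apply]
    rw [map_mul, AlgEquiv.commutes] at h1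
    have h2 : algebraMap L' K s ≠ 0 := by
      intro h0
      apply hs0
      apply (algebraMap L' K).injective
      rw [h0, map_zero]
    rw [map_inv₀, eq_inv_mul_iff_mul_eq₀ h2]
    exact h1
  have hρσs : ∀ k, ρ.symm (σ k) = σ (ρ.symm k) := by
    intro k
    rw [AlgEquiv.symm_apply_eq, hρσ, AlgEquiv.apply_symm_apply]
  have hκ : ρ (t (σ m)) = algebraMap L' K s * t (σ m) := by
    rw [hinv, hρσs, hsymm m hρm, map_mul, map_mul, hσL, htL, map_inv₀, hss', inv_inv]
  -- the fixed eigenvector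
  obtain ⟨n, hn0, hρn, hκn⟩ : ∃ n : K, n ≠ 0 ∧ ρ n = algebraMap L' K s * n ∧ t (σ n) = n := by
    by_cases h0 : m + t (σ m) = 0
    · refine ⟨algebraMap L' K (ω - s' ω) * m, ?_, ?_, ?_⟩
      · refine mul_ne_zero ?_ hm
        intro h1
        apply hω
        have h2 : ω - s' ω = 0 := by
          apply (algebraMap L' K).injective
          rw [h1, map_zero]
        exact (sub_eq_zero.1 h2).symm
      · rw [map_mul, AlgEquiv.commutes, hρm]
        ring
      · rw [map_mul, map_mul, hσL, htL, map_sub, hss, eq_neg_of_add_eq_zero_right h0, ← neg_sub ω,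
          map_neg]
        ring
    · refine ⟨m + t (σ m), h0, ?_, ?_⟩
      · rw [map_add, hρm, hκ]
        ring
      · rw [map_add, map_add, ← htσ, hσσ, htt, add_comm]
  have hσn : σ n = t n := by
    have h1 := congrArg t hκn
    rw [htt] at h1
    exact h1
  have htn0 : t n ≠ 0 := by
    intro h0
    apply hn0
    rw [← htt n, h0, map_zero]
  have hρtn : ρ (t n) = algebraMap L' K s⁻¹ * t n := by
    rw [hinv, hsymm n hρn, map_mul, htL]
  refine ⟨s, n / t n, hs, hs1, hss', div_ne_zero hn0 htn0, ?_, ?_, ?_⟩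
  · rw [map_div₀, hρn, hρtn, map_inv₀, map_pow]
    have : algebraMap L' K s ≠ 0 := by
      intro h0
      apply hs0
      apply (algebraMap L' K).injective
      rw [h0, map_zero]
    field_simp
  · rw [map_div₀, htt, inv_div]
  · rw [map_div₀, hσn, ← htσ, hκn, inv_div]

end Pool.Agent.Helper61.DIH
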