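import Pool.Agent.Helper61.DIH.Inst

/-!
Helpers for problem MP_249799_al: the dihedral theorem over a finite subfield.
-/

set_option autoImplicit false

namespace Pool.Agent.Helper61.DIH

open Pool.Agent.Helper4.GAL Polynomial TensorProduct

universe u

section

variable {F : Type*} {D : Type u} [Field F] [DivisionRing D] [Algebra F D]

/-- Passing to the centralizer of a finite subfield. -/
theorem good_of_centralizer
    (hcen : ∀ x : D, (∀ y : D, y * x = x * y) → x ∈ Set.range (algebraMap F D))
    (halg : Algebra.IsAlgebraic F D)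
    {L M : Type*} [Field L] [Algebra F L] [FiniteDimensional F L]
    [Field M] [Algebra F M] [Algebra L M] [IsScalarTower F L M] (ι : M →ₐ[F] D)
    (H : Algebra.IsSeparable L M → ∀ (C : Type u) [DivisionRing C] [Algebra L C],
      (∀ x : C, (∀ y : C, y * x = x * y) → x ∈ Set.range (algebraMap L C)) →
      Algebra.IsAlgebraic L C → (M →ₐ[L] C) → Good L C) : Good F D := by
  by_cases hsep : ∀ a : D, (minpoly F a).Separable
  · have hιinj : Function.Injective ι := ι.toRingHom.injective
    have hsepM : Algebra.IsSeparable F M := ⟨fun m => by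
      show (minpoly F m).Separable
      rw [← minpoly.algHom_eq ι hιinj]
      exact hsep _⟩
    have hsepLM : Algebra.IsSeparable L M := Algebra.isSeparable_tower_top_of_isSeparable F L M
    let j : L →ₐ[F] D := ι.comp (IsScalarTower.toAlgHom F L M)
    have hLcomm : ∀ x ∈ j.range, ∀ y ∈ j.range, x * y = y * x := by
      rintro _ ⟨x, rfl⟩ _ ⟨y, rfl⟩
      show j x * j y = j y * j x
      rw [← map_mul, mul_comm, map_mul]
    have hfin : FiniteDimensional F j.range :=
      Module.Finite.of_surjective j.rangeRestrict.toLinearMap j.rangeRestrict_surjective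
    obtain ⟨b, hb⟩ := exists_primitive halg j.range hLcomm hsep
    have hbL : b ∈ j.range := by rw [hb]; exact Algebra.self_mem_adjoin_singleton F b
    -- the centralizer
    let C : Subalgebra F D := Subalgebra.centralizer F (j.range : Set D)
    have hC : ∀ x : D, x ∈ C ↔ ∀ y ∈ j.range, y * x = x * y := fun x =>
      Subalgebra.mem_centralizer_iff F
    let _ : DivisionRing C := DivisionRing.ofIsUnitOrEqZero (fun a => by
      by_cases ha : a = 0
      · exact Or.inr ha
      · left
        have h1 : IsIntegral F (a : D) := (halg.isAlgebraic (a : D)).isIntegral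
        have h2 : ((a : D))⁻¹ ∈ C := h1.inv_mem a.2
        have ha' : (a : D) ≠ 0 := fun h => ha (Subtype.ext h)
        exact ⟨⟨a, ⟨_, h2⟩, Subtype.ext (mul_inv_cancel₀ ha'),
          Subtype.ext (inv_mul_cancel₀ ha')⟩, rfl⟩)
    have hιC : ∀ m : M, ι m ∈ C := by
      intro m
      rw [hC]
      rintro _ ⟨x, rfl⟩
      show ι (algebraMap L M x) * ι m = ι m * ι (algebraMap L M x)
      rw [← map_mul, mul_comm, map_mul]
    let κ : M →ₐ[F] C := ι.codRestrict C hιC
    let jC : L →+* C := κ.toRingHom.comp (algebraMap L M)
    have hjC : ∀ x : L, ((jC x : C) : D) = j x := fun x => rfl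
    let _ : Algebra L C := RingHom.toAlgebra' jC (fun c x => by
      apply Subtype.ext
      exact (hC x).1 x.2 (j c) ⟨c, rfl⟩)
    have : IsScalarTower F L C := IsScalarTower.of_algebraMap_eq fun r => by
      apply Subtype.ext
      show algebraMap F D r = j (algebraMap F L r)
      rw [AlgHom.commutes]
    refine good_of_tower (F := F) (B := L) (E := C) C.val ?_
    have halgC : Algebra.IsAlgebraic F C := ⟨fun x => by
      have := halg.isAlgebraic (x : D)
      exact (isAlgebraic_algHom_iff C.val Subtype.val_injective).1 this⟩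
    have halgLC : Algebra.IsAlgebraic L C := Algebra.IsAlgebraic.tower_top (K := F) L
    refine H hsepLM C ?_ halgLC { κ with commutes' := fun x => rfl }
    intro x hx
    have h1 : (x : D) ∈ j.range := by
      rw [hb]
      refine dc hcen halg b (x : D) fun y hy => ?_
      have hyC : y ∈ C := by
        rw [hC]
        intro z hz
        rw [hb] at hz
        refine Algebra.adjoin_induction (p := fun z _ => z * y = y * z) ?_ ?_ ?_ ?_ hz
        · intro z hz
          rw [Set.mem_singleton_iff.1 hz]
          exact hy
        · intro r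
          exact Algebra.commutes r y
        · intro u v _ _ hu hv
          rw [add_mul, mul_add, hu, hv]
        · intro u v _ _ hu hv
          rw [mul_assoc, hv, ← mul_assoc, hu, mul_assoc]
      exact (congrArg Subtype.val (hx ⟨y, hyC⟩)).symm
    obtain ⟨c, hc⟩ := h1
    exact ⟨c, Subtype.ext hc⟩
  · push Not at hsep
    obtain ⟨a, ha⟩ := hsep
    exact good_of_insep hcen halg a ha

end

/-- The dihedral theorem. -/
theorem good_dihedral {F D : Type*} [Field F] [DivisionRing D] [Algebra F D]
    (hcen : ∀ x : D, (∀ y : D, y * x = x * y) → x ∈ Set.range (algebraMap F D))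
    (halg : Algebra.IsAlgebraic F D)
    {L M E : Type*} [Field L] [Algebra F L] [FiniteDimensional F L]
    [Field M] [Algebra F M] [Algebra L M] [IsScalarTower F L M] [FiniteDimensional L M]
    (ι : M →ₐ[F] D)
    [Field E] [Algebra L E] [FiniteDimensional L E] [IsGalois L E]
    (h2 : Module.finrank L E = 2) (l : ℕ) (hl : l.Prime)
    (hroot : ∀ g : L[X], Irreducible g → g ∣ X ^ l - 1 → g.natDegree ≤ 2)
    (ρ : (E ⊗[L] M) ≃ₐ[E] (E ⊗[L] M)) (hρ : ρ ≠ 1) (hρl : ρ ^ l = 1) : Good F D :=
  good_of_centralizer hcen halg (L := L) ι (fun _ _ _ _ hcenC halgC κ =>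
    good_central h2 hcenC halgC κ l hl hroot ρ hρ hρl)

end Pool.Agent.Helper61.DIH
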