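import Pool.Agent.Helper4.GAL.TwoDim

/-!
Helpers for problem MP_249799_al: two identities in a division ring with an involutive
automorphism inverting two elements `x` and `q`.
-/

set_option autoImplicit false

namespace Pool.Agent.Helper61.DIH

theorem conj_rels {R : Type*} [DivisionRing R] (x q z : R) (hx : x ≠ 0) (hq : q ≠ 0) (hz : z ≠ 0)
    (hzc : ∀ r : R, z * r = r * z) (h : q * x = z * x * q) :
    q * x⁻¹ = z⁻¹ * x⁻¹ * q ∧ q⁻¹ * x = z⁻¹ * x * q⁻¹ ∧ q⁻¹ * x⁻¹ = z * x⁻¹ * q⁻¹ := by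
  have hzi : ∀ r : R, z⁻¹ * r = r * z⁻¹ := by
    intro r
    rw [inv_mul_eq_iff_eq_mul₀ hz, ← mul_assoc, hzc, mul_assoc, mul_inv_cancel₀ hz, mul_one]
  have h1 : q * x⁻¹ = z⁻¹ * x⁻¹ * q := by
    have e1 : q = z * x * q * x⁻¹ := by
      rw [← h, mul_assoc, mul_inv_cancel₀ hx, mul_one]
    have e2 : z⁻¹ * x⁻¹ * (z * x * q * x⁻¹) = q * x⁻¹ := by
      calc z⁻¹ * x⁻¹ * (z * x * q * x⁻¹) = z⁻¹ * (x⁻¹ * z) * x * q * x⁻¹ := by noncomm_ring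
        _ = z⁻¹ * (z * x⁻¹) * x * q * x⁻¹ := by rw [hzc x⁻¹]
        _ = (z⁻¹ * z) * (x⁻¹ * x) * q * x⁻¹ := by noncomm_ring
        _ = q * x⁻¹ := by rw [inv_mul_cancel₀ hz, inv_mul_cancel₀ hx, one_mul, one_mul]
    rw [← e1] at e2
    exact e2.symm
  have h2 : q⁻¹ * x = z⁻¹ * x * q⁻¹ := by
    have e1 : x = q⁻¹ * (z * x * q) := by
      rw [← h, ← mul_assoc, inv_mul_cancel₀ hq, one_mul]
    have e2 : z⁻¹ * (q⁻¹ * (z * x * q)) * q⁻¹ = q⁻¹ * x := by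
      calc z⁻¹ * (q⁻¹ * (z * x * q)) * q⁻¹ = z⁻¹ * (q⁻¹ * z) * x * (q * q⁻¹) := by noncomm_ring
        _ = z⁻¹ * (z * q⁻¹) * x * (q * q⁻¹) := by rw [hzc q⁻¹]
        _ = (z⁻¹ * z) * q⁻¹ * x * (q * q⁻¹) := by noncomm_ring
        _ = q⁻¹ * x := by rw [inv_mul_cancel₀ hz, mul_inv_cancel₀ hq, one_mul, mul_one]
    rw [← e1] at e2
    exact e2.symm
  refine ⟨h1, h2, ?_⟩
  have e1 : x⁻¹ = q⁻¹ * (z⁻¹ * x⁻¹ * q) := by
    rw [← h1, ← mul_assoc, inv_mul_cancel₀ hq, one_mul]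
  have e2 : z * (q⁻¹ * (z⁻¹ * x⁻¹ * q)) * q⁻¹ = q⁻¹ * x⁻¹ := by
    calc z * (q⁻¹ * (z⁻¹ * x⁻¹ * q)) * q⁻¹ = z * (q⁻¹ * z⁻¹) * x⁻¹ * (q * q⁻¹) := by noncomm_ring
      _ = z * (z⁻¹ * q⁻¹) * x⁻¹ * (q * q⁻¹) := by rw [hzi q⁻¹]
      _ = (z * z⁻¹) * q⁻¹ * x⁻¹ * (q * q⁻¹) := by noncomm_ring
      _ = q⁻¹ * x⁻¹ := by rw [mul_inv_cancel₀ hz, mul_inv_cancel₀ hq, one_mul, mul_one]
  rw [← e1] at e2
  exact e2.symm

theorem inv_comm {R : Type*} [DivisionRing R] (a b : R) (h : a * b = b * a) :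
    a⁻¹ * b = b * a⁻¹ := by
  by_cases ha : a = 0
  · rw [ha, inv_zero, zero_mul, mul_zero]
  · rw [inv_mul_eq_iff_eq_mul₀ ha, ← mul_assoc, h, mul_assoc, mul_inv_cancel₀ ha, mul_one]

/-- The key identity. -/
theorem key_id {R : Type*} [DivisionRing R] (x q z : R) (hx : x ≠ 0) (hq : q ≠ 0) (hz : z ≠ 0)
    (hzc : ∀ r : R, z * r = r * z) (h : q * x = z * x * q) (hA : x - x⁻¹ ≠ 0) :
    ((x - x⁻¹)⁻¹ * (q - q⁻¹)) * ((x - x⁻¹)⁻¹ * (x * q - x⁻¹ * q⁻¹))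
      = z * (((x - x⁻¹)⁻¹ * (x * q - x⁻¹ * q⁻¹)) * ((x - x⁻¹)⁻¹ * (q - q⁻¹))) := by
  obtain ⟨r2, r3, r4⟩ := conj_rels x q z hx hq hz hzc h
  have hzi : ∀ r : R, z⁻¹ * r = r * z⁻¹ := fun r => inv_comm z r (hzc r)
  have hxx : x * x⁻¹ = x⁻¹ * x := by rw [mul_inv_cancel₀ hx, inv_mul_cancel₀ hx]
  set a := (x - x⁻¹)⁻¹ with ha
  have haA : a * (x - x⁻¹) = 1 := inv_mul_cancel₀ hA
  have hAa : (x - x⁻¹) * a = 1 := mul_inv_cancel₀ hA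
  set P := q * a * q⁻¹ with hP
  set N := q⁻¹ * a * q with hN
  have e1 : q * a = P * q := by rw [hP, mul_assoc, inv_mul_cancel₀ hq, mul_one]
  have e2 : q⁻¹ * a = N * q⁻¹ := by rw [hN, mul_assoc, mul_inv_cancel₀ hq, mul_one]
  -- the conjugates of `x - x⁻¹`
  have hPA : P * (z * x - z⁻¹ * x⁻¹) = 1 := by
    have e3 : (z * x - z⁻¹ * x⁻¹) * q = q * (x - x⁻¹) := by
      rw [sub_mul, mul_sub, h, r2]
    have e4 : P * (z * x - z⁻¹ * x⁻¹) * q = 1 * q := by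
      rw [mul_assoc, e3, ← mul_assoc, ← e1, mul_assoc, haA, mul_one, one_mul]
    exact mul_right_cancel₀ hq e4
  have hNA : N * (z⁻¹ * x - z * x⁻¹) = 1 := by
    have e3 : (z⁻¹ * x - z * x⁻¹) * q⁻¹ = q⁻¹ * (x - x⁻¹) := by
      rw [sub_mul, mul_sub, r3, r4]
    have e4 : N * (z⁻¹ * x - z * x⁻¹) * q⁻¹ = 1 * q⁻¹ := by
      rw [mul_assoc, e3, ← mul_assoc, ← e2, mul_assoc, haA, mul_one, one_mul]
    exact mul_right_cancel₀ (inv_ne_zero hq) e4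
  have hPx : ∀ y : R, x * y = y * x → x⁻¹ * y = y * x⁻¹ → y * P = P * y := by
    intro y hy hy'
    have e3 : (z * x - z⁻¹ * x⁻¹) * y = y * (z * x - z⁻¹ * x⁻¹) := by
      linear_combination (norm := noncomm_ring) z * hy - z⁻¹ * hy' + hzc y * x - hzi y * x⁻¹
    have e4 : P = (z * x - z⁻¹ * x⁻¹)⁻¹ := eq_inv_of_mul_eq_one_left hPA
    rw [e4]
    exact (inv_comm _ _ e3).symm
  have hNx : ∀ y : R, x * y = y * x → x⁻¹ * y = y * x⁻¹ → y * N = N * y := by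
    intro y hy hy'
    have e3 : (z⁻¹ * x - z * x⁻¹) * y = y * (z⁻¹ * x - z * x⁻¹) := by
      linear_combination (norm := noncomm_ring) z⁻¹ * hy - z * hy' + hzi y * x - hzc y * x⁻¹
    have e4 : N = (z⁻¹ * x - z * x⁻¹)⁻¹ := eq_inv_of_mul_eq_one_left hNA
    rw [e4]
    exact (inv_comm _ _ e3).symm
  have hP1 : x * P = P * x := hPx x rfl hxx.symm
  have hP2 : x⁻¹ * P = P * x⁻¹ := hPx x⁻¹ hxx rfl
  have hN1 : x * N = N * x := hNx x rfl hxx.symm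
  have hN2 : x⁻¹ * N = N * x⁻¹ := hNx x⁻¹ hxx rfl
  have hqq : q * q⁻¹ = 1 := mul_inv_cancel₀ hq
  have hqq' : q⁻¹ * q = 1 := inv_mul_cancel₀ hq
  have hL : (a * (q - q⁻¹)) * (a * (x * q - x⁻¹ * q⁻¹))
      = a * (P * z * x * q * q - P * z⁻¹ * x⁻¹ - N * z⁻¹ * x + N * z * x⁻¹ * q⁻¹ * q⁻¹) := by
    linear_combination (norm := noncomm_ring) a * e1 * (x * q - x⁻¹ * q⁻¹)
      - a * e2 * (x * q - x⁻¹ * q⁻¹) + a * P * h * q - a * P * r2 * q⁻¹ - a * N * r3 * q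
      + a * N * r4 * q⁻¹ - a * P * z⁻¹ * x⁻¹ * hqq - a * N * z⁻¹ * x * hqq'
  have hRr : (a * (x * q - x⁻¹ * q⁻¹)) * (a * (q - q⁻¹))
      = a * (x * P * q * q - x * P - x⁻¹ * N + x⁻¹ * N * q⁻¹ * q⁻¹) := by
    linear_combination (norm := noncomm_ring) a * x * e1 * (q - q⁻¹) - a * x⁻¹ * e2 * (q - q⁻¹)
      - a * x * P * hqq - a * x⁻¹ * N * hqq'
  rw [hL, hRr]
  linear_combination (norm := noncomm_ring) a * hPA - a * hNA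
    - a * hzc P * x * q * q + a * hzc P * x - a * z * hP1 * q * q + a * z * hP1
    - hzc a * (x * P * q * q - x * P - x⁻¹ * N + x⁻¹ * N * q⁻¹ * q⁻¹)
    - a * hzc N * x⁻¹ * q⁻¹ * q⁻¹ + a * hzc N * x⁻¹ - a * z * hN2 * q⁻¹ * q⁻¹ + a * z * hN2

end Pool.Agent.Helper61.DIH
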