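import Pool.Agent.Helper61.DIH.Central2

/-!
Helpers for problem MP_249799_al: the dihedral theorem over the centre, with tensor products.
-/

set_option autoImplicit false

namespace Pool.Agent.Helper61.DIH

open Pool.Agent.Helper4.GAL Polynomial TensorProduct

section

variable {L E : Type*} [Field L] [Field E] [Algebra L E]

theorem good_central [FiniteDimensional L E] [IsGalois L E] (h2 : Module.finrank L E = 2)
    {C M : Type*} [DivisionRing C] [Algebra L C]
    (hcen : ∀ x : C, (∀ y : C, y * x = x * y) → x ∈ Set.range (algebraMap L C))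
    (halg : Algebra.IsAlgebraic L C) [Field M] [Algebra L M] [FiniteDimensional L M]
    [Algebra.IsSeparable L M] (ι : M →ₐ[L] C) (l : ℕ) (hl : l.Prime)
    (hroot : ∀ g : L[X], Irreducible g → g ∣ X ^ l - 1 → g.natDegree ≤ 2)
    (ρ : (E ⊗[L] M) ≃ₐ[E] (E ⊗[L] M)) (hρ : ρ ≠ 1) (hρl : ρ ^ l = 1) : Good L C := by
  obtain ⟨s, ε, T, N, hss, hε, hfix, hrep, hT, hN⟩ := exists_quad (L := L) (E := E) h2
  have hιinj : Function.Injective ι := ι.toRingHom.injective
  by_cases hquad : ∀ c : C, c * c + algebraMap L C T * c + algebraMap L C N ≠ 0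
  · have hquadM : ∀ m : M, m * m + algebraMap L M T * m + algebraMap L M N ≠ 0 := by
      intro m h0
      apply hquad (ι m)
      have h1 := congrArg ι h0
      rw [map_add, map_add, map_mul, map_mul, AlgHom.commutes, AlgHom.commutes, map_zero] at h1
      exact h1
    have hntC : Nontrivial (E ⊗[L] C) :=
      ⟨⟨1, 0, fun h => one_ne_zero (one_tmul_inj (L := L) (E := E) C 1 h)⟩⟩
    have hntM : Nontrivial (E ⊗[L] M) :=
      ⟨⟨1, 0, fun h => one_ne_zero (one_tmul_inj (L := L) (E := E) M 1 h)⟩⟩
    let _ : DivisionRing (E ⊗[L] C) :=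
      DivisionRing.ofIsUnitOrEqZero (isUnit_or_zero s ε hrep T N hT hN hquad)
    let _ : Field (E ⊗[L] M) :=
      Field.ofIsUnitOrEqZero (isUnit_or_zero s ε hrep T N hT hN hquadM)
    let S : Setup L E C (E ⊗[L] C) (E ⊗[L] M) :=
      { j := (Algebra.TensorProduct.includeRight (R := L) (A := E) (B := C)).toRingHom
        τ := (tau C s).toRingHom
        s := (s : E ≃ₐ[L] E).toAlgHom.toRingHom
        t := (tau M s).toRingHom
        Φ := Algebra.TensorProduct.map (AlgHom.id E E) ι
        ττ := tau_tau C s hss
        tt := tau_tau M s hss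
        ss := hss
        fix := fixed_repr s ε hε hrep C
        jτ := fun c => by
          show (s 1) ⊗ₜ[L] c = (1 : E) ⊗ₜ[L] c
          rw [map_one]
        cen := central_repr s ε hε hrep hcen
        Φt := fun k => by
          induction k with
          | zero => simp
          | tmul e m => rfl
          | add x y hx hy => rw [map_add, map_add, hx, hy, map_add, map_add]
        st := fun e => rfl
        lin := fun x => by
          show (1 : E) ⊗ₜ[L] (algebraMap L C x) = (algebraMap L E x) ⊗ₜ[L] (1 : C)
          rw [Algebra.algebraMap_eq_smul_one, Algebra.algebraMap_eq_smul_one,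
            TensorProduct.tmul_smul, TensorProduct.smul_tmul']
        fixs := hfix }
    have hun : Algebra.FormallyUnramified L M :=
      (Algebra.FormallyUnramified.iff_isSeparable L M).2 inferInstance
    have hun2 : Algebra.FormallyUnramified E (E ⊗[L] M) :=
      Algebra.FormallyUnramified.base_change (R := L) (A := M) E
    have hsep : Algebra.IsSeparable E (E ⊗[L] M) :=
      (Algebra.FormallyUnramified.iff_isSeparable E (E ⊗[L] M)).1 hun2
    refine good_of_setup2 hcen halg S ε hε ι
      (Algebra.TensorProduct.includeRight (R := L) (A := E) (B := M)).toRingHom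
      ?_ ?_ ?_ ?_ l hl hroot ρ hρ hρl
    · intro x
      show (1 : E) ⊗ₜ[L] (algebraMap L M x) = (algebraMap L E x) ⊗ₜ[L] (1 : M)
      rw [Algebra.algebraMap_eq_smul_one, Algebra.algebraMap_eq_smul_one,
        TensorProduct.tmul_smul, TensorProduct.smul_tmul']
    · intro m
      show (s 1) ⊗ₜ[L] m = (1 : E) ⊗ₜ[L] m
      rw [map_one]
    · exact fixed_repr s ε hε hrep M
    · intro σ hσ
      apply AlgEquiv.ext
      intro k
      rw [AlgEquiv.one_apply]
      induction k with
      | zero => rw [map_zero]
      | tmul e m =>
        have h1 : e ⊗ₜ[L] m = algebraMap E (E ⊗[L] M) e * ((1 : E) ⊗ₜ[L] m) := by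
          rw [Algebra.TensorProduct.algebraMap_apply, Algebra.TensorProduct.tmul_mul_tmul]
          simp
        rw [h1, map_mul, AlgEquiv.commutes]
        congr 1
        exact hσ m
      | add x y hx hy => rw [map_add, hx, hy]
  · push Not at hquad
    obtain ⟨c, hc⟩ := hquad
    refine good_of_quad hcen halg c ?_ (-T) N ?_
    · rintro ⟨x, hx⟩
      have h1 : x * x + T * x + N = 0 := by
        apply (algebraMap L C).injective
        rw [map_add, map_add, map_mul, map_mul, map_zero, hx]
        exact hc
      have h3 : (ε + algebraMap L E x) * (s ε + algebraMap L E x) = 0 := by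
        have h4 := congrArg (algebraMap L E) h1
        rw [map_add, map_add, map_mul, map_mul, map_zero, hT, hN] at h4
        linear_combination h4
      have hsx : ∀ e : E, e + algebraMap L E x = 0 → s e = e := by
        intro e he
        rw [eq_neg_of_add_eq_zero_left he, map_neg, AlgEquiv.commutes]
      rcases mul_eq_zero.1 h3 with h5 | h5
      · exact hε (hsx _ h5)
      · have h6 := hsx _ h5
        rw [hss] at h6
        exact hε h6.symm
    · rw [map_neg]
      linear_combination (norm := noncomm_ring) hc

end

end Pool.Agent.Helper61.DIH
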