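import Pool.Agent.Helper61.DIH.ExistsX

/-!
Helpers for problem MP_249799_al: the Kummer case with a root of unity of degree two over the base
field, in the abstract setting.
-/

set_option autoImplicit false

namespace Pool.Agent.Helper61.DIH

open Pool.Agent.Helper4.GAL Polynomial TensorProduct

theorem q_rel {R : Type*} [DivisionRing R] (τ : R →+* R) (X y Z : R)
    (hy : y * X = Z * X * y) (hτX : τ X = X⁻¹) (hτZ : τ Z = Z) (hZc : ∀ r : R, Z * r = r * Z)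
    (hZ0 : Z ≠ 0) :
    (τ y)⁻¹ * y * X = Z * Z * X * ((τ y)⁻¹ * y) := by
  have hτy : τ y * X⁻¹ = Z * X⁻¹ * τ y := by
    have h1 := congrArg τ hy
    rw [map_mul, map_mul, map_mul, hτX, hτZ] at h1
    exact h1
  have hτy2 : (τ y)⁻¹ * X = Z * X * (τ y)⁻¹ := by
    have h1 := congrArg (fun r => r⁻¹) hτy
    simp only [mul_inv_rev, inv_inv] at h1
    have h2 : Z * (X * (τ y)⁻¹) = Z * ((τ y)⁻¹ * (X * Z⁻¹)) := by rw [h1]
    have h3 : Z * ((τ y)⁻¹ * (X * Z⁻¹)) = (τ y)⁻¹ * X * (Z * Z⁻¹) := by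
      calc Z * ((τ y)⁻¹ * (X * Z⁻¹)) = Z * ((τ y)⁻¹ * X) * Z⁻¹ := by noncomm_ring
        _ = ((τ y)⁻¹ * X) * Z * Z⁻¹ := by rw [hZc]
        _ = (τ y)⁻¹ * X * (Z * Z⁻¹) := by noncomm_ring
    rw [h3, mul_inv_cancel₀ hZ0, mul_one] at h2
    rw [← h2]
    noncomm_ring
  calc (τ y)⁻¹ * y * X = (τ y)⁻¹ * (y * X) := by noncomm_ring
    _ = (τ y)⁻¹ * (Z * X * y) := by rw [hy]
    _ = ((τ y)⁻¹ * Z) * X * y := by noncomm_ring
    _ = Z * ((τ y)⁻¹ * X) * y := by rw [← hZc]; noncomm_ring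
    _ = Z * (Z * X * (τ y)⁻¹) * y := by rw [hτy2]
    _ = Z * Z * X * ((τ y)⁻¹ * y) := by noncomm_ring

namespace Setup

variable {L E C R K : Type*} [Field L] [Field E] [Algebra L E] [DivisionRing C]
    [Algebra L C] [DivisionRing R] [Algebra E R] [Field K] [Algebra E K]

theorem exists_y_all [FiniteDimensional E K] [Algebra.IsSeparable E K] (S : Setup L E C R K)
    (ρ : K ≃ₐ[E] K) : ∃ y : R, y ≠ 0 ∧ ∀ k, y * S.Φ k = S.Φ (ρ k) * y := by
  obtain ⟨θ, hθ⟩ := Field.exists_primitive_element E K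
  obtain ⟨y, hy0, hy⟩ := S.exists_y ρ θ
  refine ⟨y, hy0, fun k => ?_⟩
  have hint : IsIntegral E θ := IsIntegral.of_finite E θ
  have h1 : Algebra.adjoin E {θ} = ⊤ := by
    rw [← IntermediateField.adjoin_simple_toSubalgebra_of_isAlgebraic hint.isAlgebraic, hθ]
    rfl
  have hk : k ∈ Algebra.adjoin E {θ} := by
    rw [h1]
    exact Algebra.mem_top
  refine Algebra.adjoin_induction (p := fun k _ => y * S.Φ k = S.Φ (ρ k) * y) ?_ ?_ ?_ ?_ hk
  · intro x hx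
    rw [Set.mem_singleton_iff.1 hx]
    exact hy
  · intro e
    rw [AlgEquiv.commutes, AlgHom.commutes, Algebra.commutes]
  · intro a b _ _ ha hb
    rw [map_add, map_add, map_add, mul_add, add_mul, ha, hb]
  · intro a b _ _ ha hb
    rw [map_mul, map_mul, map_mul, ← mul_assoc, ha, mul_assoc, hb, mul_assoc]

theorem kummer_quad [FiniteDimensional E K] [Algebra.IsSeparable E K] (S : Setup L E C R K)
    (hcen : ∀ x : C, (∀ y : C, y * x = x * y) → x ∈ Set.range (algebraMap L C))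
    (halg : Algebra.IsAlgebraic L C)
    [Algebra L R] [IsScalarTower L E R] [Algebra L K] [IsScalarTower L E K]
    {L' : Type*} [Field L'] [Algebra L L'] (s' : L' ≃ₐ[L] L') (hss' : ∀ e, s' (s' e) = e)
    (ω : L') (hω : s' ω ≠ ω)
    (hrep' : ∀ e : L', ∃ a b : L, e = algebraMap L L' a + algebraMap L L' b * ω)
    (hfix' : ∀ e, s' e = e → ∃ l : L, algebraMap L L' l = e)
    (T N : L) (hT : algebraMap L L' T = ω + s' ω) (hN : algebraMap L L' N = ω * s' ω)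
    (hquad : ∀ r : R, r * r + algebraMap L R T * r + algebraMap L R N ≠ 0)
    (l : ℕ) (hl : Odd l) (ζ : L') (hζ : IsPrimitiveRoot ζ l) (hsζ : s' ζ = ζ⁻¹)
    (ρ : K ≃ₐ[E] K) (hρ : ρ ≠ 1) (hρl : ρ ^ l = 1)
    (hinv : ∀ k, ρ (S.t k) = S.t (ρ.symm k)) : Good L C := by
  have hl0 : 0 < l := hl.pos
  have : NeZero l := ⟨hl0.ne'⟩
  have hΦinj : Function.Injective S.Φ := S.Φ.toRingHom.injective
  have hLR : ∀ x : L, algebraMap L R x = algebraMap E R (algebraMap L E x) := fun x =>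
    IsScalarTower.algebraMap_apply L E R x
  have hLK : ∀ x : L, algebraMap L K x = algebraMap E K (algebraMap L E x) := fun x =>
    IsScalarTower.algebraMap_apply L E K x
  -- the maps over `L`
  let τL : R →ₐ[L] R := { S.τ with
    commutes' := fun x => by
      show S.τ (algebraMap L R x) = algebraMap L R x
      rw [hLR, S.sτ, S.sl] }
  let tL : K →ₐ[L] K := { S.t with
    commutes' := fun x => by
      show S.t (algebraMap L K x) = algebraMap L K x
      rw [hLK, S.st, S.sl] }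
  let ΦL : K →ₐ[L] R := { S.Φ.toRingHom with
    commutes' := fun x => by
      show S.Φ (algebraMap L K x) = algebraMap L R x
      rw [hLK, hLR, AlgHom.commutes] }
  let ρL : K ≃ₐ[L] K := AlgEquiv.ofRingEquiv (f := ρ.toRingEquiv) (fun x => by
    show ρ (algebraMap L K x) = algebraMap L K x
    rw [hLK, AlgEquiv.commutes])
  have hρL : ∀ k, ρL k = ρ k := fun k => rfl
  have hρLs : ∀ k, ρL.symm k = ρ.symm k := fun k => rfl
  have hquadK : ∀ k : K, k * k + algebraMap L K T * k + algebraMap L K N ≠ 0 := by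
    intro k h0
    apply hquad (ΦL k)
    have h1 := congrArg ΦL h0
    rw [map_add, map_add, map_mul, map_mul, AlgHom.commutes, AlgHom.commutes, map_zero] at h1
    exact h1
  have hntR : Nontrivial (L' ⊗[L] R) :=
    ⟨⟨1, 0, fun h => one_ne_zero (one_tmul_inj (L := L) (E := L') R 1 h)⟩⟩
  have hntK : Nontrivial (L' ⊗[L] K) :=
    ⟨⟨1, 0, fun h => one_ne_zero (one_tmul_inj (L := L) (E := L') K 1 h)⟩⟩
  let _ : DivisionRing (L' ⊗[L] R) :=
    DivisionRing.ofIsUnitOrEqZero (isUnit_or_zero s' ω hrep' T N hT hN hquad)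
  let _ : Field (L' ⊗[L] K) :=
    Field.ofIsUnitOrEqZero (isUnit_or_zero s' ω hrep' T N hT hN hquadK)
  -- the maps over `L'`
  let τ' : L' ⊗[L] R →ₐ[L'] L' ⊗[L] R := Algebra.TensorProduct.map (AlgHom.id L' L') τL
  let t' : L' ⊗[L] K →ₐ[L'] L' ⊗[L] K := Algebra.TensorProduct.map (AlgHom.id L' L') tL
  let Φ' : L' ⊗[L] K →ₐ[L'] L' ⊗[L] R := Algebra.TensorProduct.map (AlgHom.id L' L') ΦL
  let σR : L' ⊗[L] R →ₐ[L] L' ⊗[L] R := tau R s'
  let σK : L' ⊗[L] K →ₐ[L] L' ⊗[L] K := tau K s'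
  let ρ' : L' ⊗[L] K ≃ₐ[L'] L' ⊗[L] K := Algebra.TensorProduct.congr AlgEquiv.refl ρL
  have aR : ∀ e : L', algebraMap L' (L' ⊗[L] R) e = e ⊗ₜ[L] 1 := fun e => rfl
  have aK : ∀ e : L', algebraMap L' (L' ⊗[L] K) e = e ⊗ₜ[L] 1 := fun e => rfl
  have eτ : ∀ e r, τ' (e ⊗ₜ[L] r) = e ⊗ₜ[L] (S.τ r) := fun e r => rfl
  have et : ∀ e k, t' (e ⊗ₜ[L] k) = e ⊗ₜ[L] (S.t k) := fun e k => rfl
  have eΦ : ∀ e k, Φ' (e ⊗ₜ[L] k) = e ⊗ₜ[L] (S.Φ k) := fun e k => rfl
  have eσR : ∀ e r, σR (e ⊗ₜ[L] r) = (s' e) ⊗ₜ[L] r := fun e r => rfl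
  have eσK : ∀ e k, σK (e ⊗ₜ[L] k) = (s' e) ⊗ₜ[L] k := fun e k => rfl
  have eρ : ∀ e k, ρ' (e ⊗ₜ[L] k) = e ⊗ₜ[L] (ρ k) := fun e k => rfl
  have eρs : ∀ e k, ρ'.symm (e ⊗ₜ[L] k) = e ⊗ₜ[L] (ρ.symm k) := fun e k => rfl
  have http : ∀ k, t' (t' k) = k := by
    intro k
    induction k with
    | zero => rw [map_zero, map_zero]
    | tmul e k => rw [et, et, S.tt]
    | add a b ha hb => rw [map_add, map_add, ha, hb]
  have hττp : ∀ k, τ' (τ' k) = k := by
    intro k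
    induction k with
    | zero => rw [map_zero, map_zero]
    | tmul e k => rw [eτ, eτ, S.ττ]
    | add a b ha hb => rw [map_add, map_add, ha, hb]
  have htσp : ∀ k, t' (σK k) = σK (t' k) := by
    intro k
    induction k with
    | zero => rw [map_zero, map_zero, map_zero]
    | tmul e k => rw [eσK, et, et, eσK]
    | add a b ha hb => rw [map_add, map_add, map_add, map_add, ha, hb]
  have hτσp : ∀ k, τ' (σR k) = σR (τ' k) := by
    intro k
    induction k with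
    | zero => rw [map_zero, map_zero, map_zero]
    | tmul e k => rw [eσR, eτ, eτ, eσR]
    | add a b ha hb => rw [map_add, map_add, map_add, map_add, ha, hb]
  have hΦτ : ∀ k, τ' (Φ' k) = Φ' (t' k) := by
    intro k
    induction k with
    | zero => rw [map_zero, map_zero, map_zero, map_zero]
    | tmul e k => rw [eΦ, eτ, et, eΦ, S.Φt]
    | add a b ha hb => rw [map_add, map_add, map_add, map_add, ha, hb]
  have hΦσ : ∀ k, σR (Φ' k) = Φ' (σK k) := by
    intro k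
    induction k with
    | zero => rw [map_zero, map_zero, map_zero, map_zero]
    | tmul e k => rw [eΦ, eσR, eσK, eΦ]
    | add a b ha hb => rw [map_add, map_add, map_add, map_add, ha, hb]
  have hinvp : ∀ k, ρ' (t' k) = t' (ρ'.symm k) := by
    intro k
    induction k with
    | zero => rw [map_zero, map_zero, map_zero, map_zero]
    | tmul e k => rw [et, eρ, eρs, et, hinv]
    | add a b ha hb => rw [map_add, map_add, map_add, map_add, ha, hb]
  have hρσp : ∀ k, ρ' (σK k) = σK (ρ' k) := by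
    intro k
    induction k with
    | zero => rw [map_zero, map_zero, map_zero]
    | tmul e k => rw [eσK, eρ, eρ, eσK]
    | add a b ha hb => rw [map_add, map_add, map_add, map_add, ha, hb]
  have hρpow : ∀ n : ℕ, ∀ e k, (ρ' ^ n) (e ⊗ₜ[L] k) = e ⊗ₜ[L] ((ρ ^ n) k) := by
    intro n
    induction n with
    | zero => intro e k; rfl
    | succ n ih =>
      intro e k
      rw [pow_succ, pow_succ, AlgEquiv.mul_apply, AlgEquiv.mul_apply, eρ, ih]
  have hρ'l : ρ' ^ l = 1 := by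
    apply AlgEquiv.ext
    intro k
    rw [AlgEquiv.one_apply]
    induction k with
    | zero => rw [map_zero]
    | tmul e k => rw [hρpow, hρl, AlgEquiv.one_apply]
    | add a b ha hb => rw [map_add, ha, hb]
  have hρ'1 : ρ' ≠ 1 := by
    intro h0
    apply hρ
    apply AlgEquiv.ext
    intro k
    have h1 : ρ' ((1 : L') ⊗ₜ[L] k) = (1 : L') ⊗ₜ[L] k := by rw [h0, AlgEquiv.one_apply]
    rw [eρ] at h1
    have h2 : (1 : L') ⊗ₜ[L] (ρ k - k) = 0 := by rw [tmul_sub, h1, sub_self]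
    rw [AlgEquiv.one_apply]
    exact sub_eq_zero.1 (one_tmul_inj (L := L) (E := L') K _ h2)
  obtain ⟨s, x, hsl, hs1, hss, hx0, hρx, htx, hσx⟩ := exists_x (L' := L') (K := L' ⊗[L] K)
    (s' : L' ≃ₐ[L] L').toAlgHom.toRingHom t'.toRingHom σK.toRingHom hss' http
    (tau_tau K s' hss') htσp (fun e => t'.commutes e) (fun e => rfl) ω hω ρ' hρ'1 l hl0 hρ'l ζ hζ
    hsζ hinvp hρσp
  have hs0 : s ≠ 0 := by
    intro h0
    rw [h0, zero_pow hl0.ne'] at hsl
    exact zero_ne_one hsl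
  -- the element of `R`
  obtain ⟨y, hy0, hy⟩ := S.exists_y_all ρ
  have hτy0 : S.τ y ≠ 0 := by
    intro h0
    apply hy0
    rw [← S.ττ y, h0, map_zero]
  have hyp : ∀ k : L' ⊗[L] K, ((1 : L') ⊗ₜ[L] y) * Φ' k = Φ' (ρ' k) * ((1 : L') ⊗ₜ[L] y) := by
    intro k
    induction k with
    | zero => rw [map_zero, map_zero, map_zero, mul_zero, zero_mul]
    | tmul e k =>
      rw [eρ, eΦ, eΦ, Algebra.TensorProduct.tmul_mul_tmul, Algebra.TensorProduct.tmul_mul_tmul,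
        one_mul, mul_one, hy]
    | add a b ha hb => rw [map_add, map_add, map_add, mul_add, add_mul, ha, hb]
  set X := Φ' x with hX
  have hX0 : X ≠ 0 := by
    intro h0
    apply hx0
    apply (Φ'.toRingHom.injective)
    show Φ' x = Φ' 0
    rw [← hX, h0, map_zero]
  have hτX : τ' X = X⁻¹ := by
    have h1 : t' x = x⁻¹ := htx
    rw [hX, hΦτ, h1, map_inv₀]
  have hσX : σR X = X⁻¹ := by
    have h1 : σK x = x⁻¹ := hσx
    rw [hX, hΦσ, h1, map_inv₀]
  set Z := algebraMap L' (L' ⊗[L] R) (s ^ 2) with hZ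
  have hZc : ∀ r, Z * r = r * Z := fun r => Algebra.commutes _ _
  have hZ0 : Z ≠ 0 := by
    intro h0
    apply pow_ne_zero 2 hs0
    apply (algebraMap L' (L' ⊗[L] R)).injective
    rw [← hZ, h0, map_zero]
  have hτZ : τ' Z = Z := τ'.commutes _
  set Y : L' ⊗[L] R := (1 : L') ⊗ₜ[L] y with hY
  have hYX : Y * X = Z * X * Y := by
    have h1 : ρ' x = algebraMap L' (L' ⊗[L] K) (s ^ 2) * x := hρx
    have h2 := hyp x
    rw [h1, map_mul, AlgHom.commutes] at h2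
    exact h2
  have hτY : τ' Y = (1 : L') ⊗ₜ[L] (S.τ y) := rfl
  have hτYinv : (τ' Y)⁻¹ = (1 : L') ⊗ₜ[L] (S.τ y)⁻¹ := by
    apply inv_eq_of_mul_eq_one_right
    rw [hτY, Algebra.TensorProduct.tmul_mul_tmul, one_mul, mul_inv_cancel₀ hτy0]
    rfl
  have hY0 : Y ≠ 0 := by
    intro h0
    exact hy0 (one_tmul_inj (L := L) (E := L') R y h0)
  have hτY0 : τ' Y ≠ 0 := by
    intro h0
    exact hτy0 (one_tmul_inj (L := L) (E := L') R _ (hτY.symm.trans h0))
  have hrel := q_rel τ'.toRingHom X Y Z hYX hτX hτZ hZc hZ0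
  have hZZ : Z * Z = algebraMap L' (L' ⊗[L] R) (s ^ 4) := by
    rw [hZ, ← map_mul, ← pow_add]
  have hs8 : s ^ 8 ≠ 1 := by
    intro h0
    have h1 : orderOf s ∣ 8 := orderOf_dvd_of_pow_eq_one h0
    have h2 : orderOf s ∣ l := orderOf_dvd_of_pow_eq_one hsl
    have h3 : Nat.Coprime 8 l := by
      have : Nat.Coprime 2 l := (Nat.coprime_two_left).2 hl
      exact Nat.Coprime.pow_left 3 this
    have h4 : orderOf s ∣ 1 := by
      rw [← Nat.Coprime.gcd_eq_one h3]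
      exact Nat.dvd_gcd h1 h2
    exact hs1 (orderOf_eq_one_iff.1 (Nat.dvd_one.1 h4))
  have hsinv : s' s = s⁻¹ := hss
  obtain ⟨α, hα⟩ := hfix' (s ^ 4 + s⁻¹ ^ 4) (by
    rw [map_add, map_pow, map_pow, map_inv₀, hsinv, inv_inv, add_comm])
  have hainj : Function.Injective (algebraMap L' (L' ⊗[L] R)) :=
    (algebraMap L' (L' ⊗[L] R)).injective
  refine core_quad hcen halg
    ((Algebra.TensorProduct.includeRight (R := L) (A := L') (B := R)).toRingHom.comp S.j)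
    τ'.toRingHom σR.toRingHom ?_ (tau_tau R s' hss') hτσp (algebraMap L' (L' ⊗[L] R) ω)
    (Z * Z) (algebraMap L' (L' ⊗[L] R) (s⁻¹ ^ 4)) (fun r => Algebra.commutes _ _)
    (τ'.commutes _) ?_ ?_ ?_ ?_ ?_ α ?_ X ((τ' Y)⁻¹ * Y) hX0
    (mul_ne_zero (inv_ne_zero hτY0) hY0) hrel hτX hσX ?_ ?_
  · intro r h1 h2
    obtain ⟨r₀, rfl⟩ := fixed_repr s' ω hω hrep' R r h2
    have h3 : τ' ((1 : L') ⊗ₜ[L] r₀) = (1 : L') ⊗ₜ[L] r₀ := h1
    rw [eτ] at h3
    have h4 : (1 : L') ⊗ₜ[L] (S.τ r₀ - r₀) = 0 := by rw [tmul_sub, h3, sub_self]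
    obtain ⟨c, hc⟩ := S.fix r₀ (sub_eq_zero.1 (one_tmul_inj (L := L) (E := L') R _ h4))
    refine ⟨c, ?_⟩
    show (1 : L') ⊗ₜ[L] (S.j c) = _
    rw [hc]
  · intro h0
    apply hω
    apply hainj
    exact h0
  · rw [hZZ, ← map_mul]
    intro h0
    apply hs8
    apply hainj
    rw [map_one, ← h0]
    congr 1
    ring
  · intro r
    rw [hZZ]
    exact Algebra.commutes _ _
  · rw [hZZ, ← map_mul, ← mul_pow, mul_inv_cancel₀ hs0, one_pow, map_one]
  · rw [hZZ]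
    show (s' (s ^ 4)) ⊗ₜ[L] (1 : R) = (s⁻¹ ^ 4) ⊗ₜ[L] (1 : R)
    rw [map_pow, hsinv]
  · rw [hZZ, ← map_add, ← hα]
    show (1 : L') ⊗ₜ[L] (S.j (algebraMap L C α)) = (algebraMap L L' α) ⊗ₜ[L] (1 : R)
    rw [S.lin, ← hLR, Algebra.algebraMap_eq_smul_one, Algebra.algebraMap_eq_smul_one,
      TensorProduct.tmul_smul, TensorProduct.smul_tmul']
  · show τ' ((τ' Y)⁻¹ * Y) = ((τ' Y)⁻¹ * Y)⁻¹
    rw [map_mul, map_inv₀, hττp, mul_inv_rev, inv_inv]
  · rw [hτYinv]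
    show σR ((1 : L') ⊗ₜ[L] (S.τ y)⁻¹ * (1 : L') ⊗ₜ[L] y) = _
    rw [map_mul, eσR, eσR, map_one]

end Setup

end Pool.Agent.Helper61.DIH
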