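import Pool.Agent.Helper61.DIH.Twist

/-!
Helpers for problem MP_249799_al: a noncentral element of `E ⊗ C` quadratic over the centre of
`C`.
-/

set_option autoImplicit false

namespace Pool.Agent.Helper61.DIH

open Pool.Agent.Helper4.GAL Polynomial

namespace Setup

variable {L E C R K : Type*} [Field L] [Field E] [Algebra L E] [DivisionRing C]
    [Algebra L C] [DivisionRing R] [Algebra E R] [Field K] [Algebra E K]

theorem quad_elt (S : Setup L E C R K)
    (hcen : ∀ x : C, (∀ y : C, y * x = x * y) → x ∈ Set.range (algebraMap L C))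
    (halg : Algebra.IsAlgebraic L C) (ε : E) (hε : S.s ε ≠ ε) (r : R)
    (hr : r ∉ Set.range (algebraMap E R)) (T N : L)
    (h : r * r = algebraMap E R (algebraMap L E T) * r - algebraMap E R (algebraMap L E N)) :
    Good L C := by
  have hjinj : Function.Injective S.j := S.j.injective
  set T' := algebraMap E R (algebraMap L E T) with hT'
  set N' := algebraMap E R (algebraMap L E N) with hN'
  have hTc : ∀ x : R, T' * x = x * T' := fun x => Algebra.commutes _ _
  have hτT : S.τ T' = T' := by rw [hT', S.sτ, S.sl]
  have hτN : S.τ N' = N' := by rw [hN', S.sτ, S.sl]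
  have h' : S.τ r * S.τ r = T' * S.τ r - N' := by
    have h1 := congrArg S.τ h
    rw [map_mul, map_sub, map_mul, hτT, hτN] at h1
    exact h1
  set d := algebraMap E R (ε - S.s ε) with hd
  have hdE : ε - S.s ε ≠ 0 := sub_ne_zero.2 hε.symm
  have hd0 : d ≠ 0 := by
    intro h0
    apply hdE
    apply (algebraMap E R).injective
    rw [← hd, h0, map_zero]
  have hτd : S.τ d = -d := by
    rw [hd, S.sτ, map_sub, S.ss, ← map_neg, neg_sub]
  have hdc : ∀ x : R, d * x = x * d := fun x => Algebra.commutes _ _
  have hdic : ∀ x : R, d⁻¹ * x = x * d⁻¹ := fun x => inv_comm _ _ (hdc x)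
  obtain ⟨g, hg⟩ := S.fix (r + S.τ r - T') (by
    rw [map_sub, map_add, S.ττ, hτT, add_comm])
  have hrg : r * S.j g = S.j g * S.τ r := by
    rw [hg]
    linear_combination (norm := noncomm_ring) h - h' + hTc r
  have hτrg : S.τ r * S.j g = S.j g * r := by
    have h1 := congrArg S.τ hrg
    rw [map_mul, map_mul, S.jτ, S.ττ] at h1
    exact h1
  by_cases hg0 : g = 0
  · -- the case `r + τ r = T`
    rw [hg0, map_zero] at hg
    have hτr : S.τ r = T' - r := by
      linear_combination (norm := noncomm_ring) - hg
    obtain ⟨ε₁, hε₁⟩ : ∃ ε₁ : E, ε₁ + S.s ε₁ ≠ 0 := by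
      by_cases h2 : (2 : E) = 0
      · refine ⟨ε, fun h0 => hε ?_⟩
        have h1 : S.s ε = -ε := eq_neg_of_add_eq_zero_right h0
        rw [h1, neg_eq_iff_add_eq_zero, ← two_mul, h2, zero_mul]
      · exact ⟨1, by rwa [map_one, one_add_one_eq_two]⟩
    set e := ε₁ * (algebraMap L E T / (ε₁ + S.s ε₁)) with he
    have hes : e + S.s e = algebraMap L E T := by
      rw [he, map_mul, map_div₀, map_add, S.ss, S.sl, add_comm (S.s ε₁) ε₁]
      field_simp
    clear_value e
    have hse : algebraMap E R (S.s e) = T' - algebraMap E R e := by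
      rw [hT', ← hes, map_add]
      abel
    set e' := algebraMap E R e with he'
    have hec : ∀ x : R, e' * x = x * e' := fun x => Algebra.commutes _ _
    have hτe : S.τ e' = T' - e' := by rw [he', S.sτ, hse]
    obtain ⟨u, hu⟩ := S.fix (d * (r - e')) (by
      rw [map_mul, map_sub, hτd, hτr, hτe]
      noncomm_ring)
    obtain ⟨α, hα⟩ := S.fixs (-(e - S.s e) * (ε - S.s ε)) (by
      rw [map_mul, map_neg, map_sub, map_sub, S.ss, S.ss]
      ring)
    obtain ⟨β, hβ⟩ := S.fixs ((ε - S.s ε) * (ε - S.s ε) * (algebraMap L E N - e * S.s e)) (by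
      rw [map_mul, map_mul, map_sub, map_sub, map_mul, S.ss, S.ss, S.sl]
      ring)
    refine good_of_quad hcen halg u ?_ α β ?_
    · rintro ⟨l, hl⟩
      apply hr
      refine ⟨algebraMap L E l / (ε - S.s ε) + e, ?_⟩
      rw [map_add, map_div₀, ← S.lin, hl, hu, ← hd, ← he', div_eq_mul_inv, ← hdic, ← mul_assoc,
        inv_mul_cancel₀ hd0, one_mul, sub_add_cancel]
    · apply hjinj
      have m1 : algebraMap E R (-(e - S.s e) * (ε - S.s ε)) = -(e' - (T' - e')) * d := by
        rw [map_mul, map_neg, map_sub (algebraMap E R) e (S.s e), hse]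
      have m2 : algebraMap E R ((ε - S.s ε) * (ε - S.s ε) * (algebraMap L E N - e * S.s e))
          = d * d * (N' - e' * (T' - e')) := by
        rw [map_mul, map_mul, map_sub (algebraMap E R) _ (e * S.s e), map_mul, hse]
      rw [map_mul, map_sub, map_mul, S.lin, S.lin, hα, hβ, hu, m1, m2]
      have h1 : d * (r - e') * (d * (r - e')) = d * d * (r * r - e' * r - r * e' + e' * e') := by
        have : (r - e') * (d * (r - e')) = d * ((r - e') * (r - e')) := by
          rw [← mul_assoc, ← hdc, mul_assoc]
        rw [mul_assoc, this]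
        noncomm_ring
      rw [h1, h]
      have h2 : -(e' - (T' - e')) * d * (d * (r - e'))
          = d * d * (-(e' - (T' - e')) * (r - e')) := by
        rw [← hdc, mul_assoc, ← mul_assoc _ d (r - e'), ← hdc]
        noncomm_ring
      rw [h2]
      linear_combination (norm := noncomm_ring) d * d * hec r - d * d * hec T'
  · -- the general case
    obtain ⟨b, hb⟩ := S.fix (d⁻¹ * (r - S.τ r)) (by
      rw [map_mul, map_inv₀, hτd, map_sub, S.ττ, inv_neg]
      noncomm_ring)
    set ε' := algebraMap E R ε with hε'
    set δ' := algebraMap E R (S.s ε) with hδ'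
    have hdd : d = ε' - δ' := by rw [hd, map_sub]
    have hτε : S.τ ε' = δ' := by rw [hε', S.sτ]
    have hτδ : S.τ δ' = ε' := by rw [hδ', S.sτ, S.ss]
    have hεc : ∀ x : R, ε' * x = x * ε' := fun x => Algebra.commutes _ _
    have hδc : ∀ x : R, δ' * x = x * δ' := fun x => Algebra.commutes _ _
    have hdb : d * S.j b = r - S.τ r := by
      rw [hb, ← mul_assoc, mul_inv_cancel₀ hd0, one_mul]
    obtain ⟨a, ha⟩ := S.fix (r - ε' * S.j b) (by
      rw [map_sub, map_mul, S.jτ, hτε]
      linear_combination (norm := noncomm_ring) hdb - hdd * S.j b)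
    obtain ⟨t, ht⟩ := S.fixs (ε + S.s ε) (by rw [map_add, S.ss, add_comm])
    have ht' : S.j (algebraMap L C t) = ε' + δ' := by rw [S.lin, ht, map_add]
    have hbg : b * g = -(g * b) := by
      apply hjinj
      rw [map_mul, map_neg, map_mul]
      have h1 : d * (S.j b * S.j g) = d * -(S.j g * S.j b) := by
        have h2 : d * -(S.j g * S.j b) = -(S.j g * (d * S.j b)) := by
          rw [mul_neg, ← mul_assoc, hdc, mul_assoc]
        rw [h2, ← mul_assoc, hdb]
        linear_combination (norm := noncomm_ring) hrg - hτrg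
      exact mul_left_cancel₀ hd0 h1
    have hag : a * g = g * (a + algebraMap L C t * b) := by
      apply hjinj
      rw [map_mul, map_mul, map_add, map_mul, ha, ht']
      have hbg' : S.j b * S.j g = -(S.j g * S.j b) := by
        rw [← map_mul, hbg, map_neg, map_mul]
      linear_combination (norm := noncomm_ring) hrg - ε' * hbg' + hεc (S.j g) * S.j b
        + S.j g * hdb - S.j g * hdd * S.j b
    by_cases hb0 : b = 0
    · have har : S.j a = r := by rw [ha, hb0, map_zero, mul_zero, sub_zero]
      refine good_of_quad hcen halg a ?_ T N ?_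
      · rintro ⟨l, hl⟩
        apply hr
        exact ⟨algebraMap L E l, by rw [← S.lin, hl, har]⟩
      · apply hjinj
        rw [map_mul, map_sub, map_mul, S.lin, S.lin, har]
        exact h
    · by_cases hbb : -b = b
      · -- characteristic two
        have h2C : (2 : C) = 0 := by
          have h1 : b + b = 0 := by
            nth_rw 1 [← hbb]
            exact neg_add_cancel b
          rw [← two_mul] at h1
          exact (mul_eq_zero.1 h1).resolve_right hb0
        have ht0 : t ≠ 0 := by
          intro h0
          apply hε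
          rw [h0, map_zero] at ht
          have h2E : (2 : E) = 0 := by
            apply (algebraMap E R).injective
            rw [map_ofNat, map_zero, ← map_ofNat S.j, h2C, map_zero]
          have h1 : S.s ε = -ε := eq_neg_of_add_eq_zero_right ht.symm
          rw [h1, neg_eq_iff_add_eq_zero, ← two_mul, h2E, zero_mul]
        have hbg2 : b * g = g * b := by
          rw [hbg, ← mul_neg, hbb]
        have hbi : b⁻¹ * g = g * b⁻¹ := inv_comm _ _ hbg2
        have hkey : (a * b⁻¹) * g = g * (a * b⁻¹ + algebraMap L C t) := by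
          calc (a * b⁻¹) * g = a * (b⁻¹ * g) := by noncomm_ring
            _ = (a * g) * b⁻¹ := by rw [hbi]; noncomm_ring
            _ = g * (a * b⁻¹ + algebraMap L C t * (b * b⁻¹)) := by rw [hag]; noncomm_ring
            _ = g * (a * b⁻¹ + algebraMap L C t) := by rw [mul_inv_cancel₀ hb0, mul_one]
        refine good_of_conj_one halg (a * b⁻¹) (a * b⁻¹ + algebraMap L C t) g⁻¹
          (inv_ne_zero hg0) ?_ ?_ ?_
        · have h3 : g⁻¹ * ((a * b⁻¹) * g) * g⁻¹
              = g⁻¹ * (g * (a * b⁻¹ + algebraMap L C t)) * g⁻¹ := by rw [hkey]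
          rw [mul_assoc g⁻¹, mul_assoc (a * b⁻¹) g, mul_inv_cancel₀ hg0, mul_one,
            ← mul_assoc g⁻¹ g, inv_mul_cancel₀ hg0, one_mul] at h3
          exact h3
        · exact Subalgebra.add_mem _ (Algebra.self_mem_adjoin_singleton L _)
            (Subalgebra.algebraMap_mem _ _)
        · intro hcon
          apply ht0
          apply (algebraMap L C).injective
          rw [map_zero]
          exact add_eq_left.1 hcon
      · refine good_of_conj_one halg b (-b) g hg0 ?_ ?_ hbb
        · rw [neg_mul, hbg, neg_neg]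
        · exact Subalgebra.neg_mem _ (Algebra.self_mem_adjoin_singleton L b)

end Setup

end Pool.Agent.Helper61.DIH
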