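import Pool.Agent.Helper61.DIH.Abs3

/-!
Helpers for problem MP_249799_al: the tensor product of a division ring with a quadratic
extension of its centre.
-/

set_option autoImplicit false

namespace Pool.Agent.Helper61.DIH

open Pool.Agent.Helper4.GAL Polynomial TensorProduct

section

variable {L E C : Type*} [Field L] [Field E] [Algebra L E] [DivisionRing C] [Algebra L C]

/-- The involution of the tensor product. -/
noncomputable def tau (C : Type*) [Ring C] [Algebra L C] (s : E ≃ₐ[L] E) :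
    E ⊗[L] C →ₐ[L] E ⊗[L] C :=
  Algebra.TensorProduct.map (s : E →ₐ[L] E) (AlgHom.id L C)

theorem tau_tmul (s : E ≃ₐ[L] E) (e : E) (c : C) : tau C s (e ⊗ₜ c) = (s e) ⊗ₜ c := rfl

theorem tau_tau (C : Type*) [Ring C] [Algebra L C] (s : E ≃ₐ[L] E) (hs : ∀ e, s (s e) = e)
    (r : E ⊗[L] C) : tau C s (tau C s r) = r := by
  induction r with
  | zero => rw [map_zero, map_zero]
  | tmul e c =>
    show (s (s e)) ⊗ₜ c = e ⊗ₜ c
    rw [hs]
  | add x y hx hy => rw [map_add, map_add, hx, hy]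

theorem exists_repr (ε : E) (hε : ∀ e : E, ∃ a b : L, e = algebraMap L E a + algebraMap L E b * ε)
    (C : Type*) [Ring C] [Algebra L C]
    (r : E ⊗[L] C) : ∃ a b : C, r = (1 : E) ⊗ₜ[L] a + ε ⊗ₜ[L] b := by
  induction r with
  | zero => exact ⟨0, 0, by simp⟩
  | tmul e c =>
    obtain ⟨a, b, hab⟩ := hε e
    refine ⟨a • c, b • c, ?_⟩
    rw [hab, add_tmul, TensorProduct.tmul_smul, TensorProduct.tmul_smul, TensorProduct.smul_tmul',
      TensorProduct.smul_tmul', Algebra.smul_def, Algebra.smul_def, mul_one]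
  | add x y hx hy =>
    obtain ⟨a, b, hx⟩ := hx
    obtain ⟨a', b', hy⟩ := hy
    refine ⟨a + a', b + b', ?_⟩
    rw [hx, hy, tmul_add, tmul_add]
    abel

theorem one_tmul_inj (C : Type*) [Ring C] [Algebra L C] (c : C)
    (h : (1 : E) ⊗ₜ[L] c = 0) : c = 0 := by
  have hinj : Function.Injective (Algebra.TensorProduct.includeRight (R := L) (A := E) (B := C)) :=
    Algebra.TensorProduct.includeRight_injective (algebraMap L E).injective
  apply hinj
  rw [map_zero]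
  exact h

theorem tmul_inj (C : Type*) [Ring C] [Algebra L C] (e : E) (he : e ≠ 0) (c : C)
    (h : e ⊗ₜ[L] c = 0) : c = 0 := by
  apply one_tmul_inj (L := L) (E := E) C c
  have h1 : (e⁻¹ ⊗ₜ[L] (1 : C)) * (e ⊗ₜ[L] c) = 0 := by rw [h, mul_zero]
  rw [Algebra.TensorProduct.tmul_mul_tmul, inv_mul_cancel₀ he, one_mul] at h1
  exact h1

theorem fixed_repr (s : E ≃ₐ[L] E) (ε : E) (hsε : s ε ≠ ε)
    (hε : ∀ e : E, ∃ a b : L, e = algebraMap L E a + algebraMap L E b * ε)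
    (C : Type*) [Ring C] [Algebra L C] (r : E ⊗[L] C) (hr : tau C s r = r) :
    ∃ c : C, (1 : E) ⊗ₜ[L] c = r := by
  obtain ⟨a, b, rfl⟩ := exists_repr ε hε C r
  have h1 : tau C s ((1 : E) ⊗ₜ[L] a + ε ⊗ₜ[L] b) = (1 : E) ⊗ₜ[L] a + (s ε) ⊗ₜ[L] b := by
    rw [map_add]
    show (s 1) ⊗ₜ[L] a + (s ε) ⊗ₜ[L] b = _
    rw [map_one]
  rw [h1, add_right_inj] at hr
  have h2 : (s ε - ε) ⊗ₜ[L] b = 0 := by rw [sub_tmul, hr, sub_self]
  have h3 : b = 0 := tmul_inj C _ (sub_ne_zero.2 hsε) b h2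
  refine ⟨a, ?_⟩
  rw [h3, tmul_zero, add_zero]

theorem repr_zero (s : E ≃ₐ[L] E) (ε : E) (hsε : s ε ≠ ε) (C : Type*) [Ring C] [Algebra L C]
    (a b : C) (h : (1 : E) ⊗ₜ[L] a + ε ⊗ₜ[L] b = 0) : a = 0 ∧ b = 0 := by
  have h1 : tau C s ((1 : E) ⊗ₜ[L] a + ε ⊗ₜ[L] b) = (1 : E) ⊗ₜ[L] a + (s ε) ⊗ₜ[L] b := by
    rw [map_add]
    show (s 1) ⊗ₜ[L] a + (s ε) ⊗ₜ[L] b = _
    rw [map_one]
  rw [h, map_zero] at h1
  have h2 : (s ε - ε) ⊗ₜ[L] b = 0 := by
    rw [sub_tmul, ← add_sub_add_left_eq_sub _ _ ((1 : E) ⊗ₜ[L] a), ← h1, h, sub_self]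
  have h3 : b = 0 := tmul_inj C _ (sub_ne_zero.2 hsε) b h2
  refine ⟨?_, h3⟩
  rw [h3, tmul_zero, add_zero] at h
  exact one_tmul_inj C a h

theorem isUnit_or_zero (s : E ≃ₐ[L] E) (ε : E)
    (hε : ∀ e : E, ∃ a b : L, e = algebraMap L E a + algebraMap L E b * ε) (T N : L)
    (hT : algebraMap L E T = ε + s ε) (hN : algebraMap L E N = ε * s ε)
    (hquad : ∀ c : C, c * c + algebraMap L C T * c + algebraMap L C N ≠ 0)
    (r : E ⊗[L] C) : IsUnit r ∨ r = 0 := by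
  obtain ⟨a, b, rfl⟩ := exists_repr ε hε C r
  by_cases hb : b = 0
  · rw [hb, tmul_zero, add_zero]
    by_cases ha : a = 0
    · right
      rw [ha, tmul_zero]
    · left
      refine ⟨⟨1 ⊗ₜ a, 1 ⊗ₜ a⁻¹, ?_, ?_⟩, rfl⟩
      · rw [Algebra.TensorProduct.tmul_mul_tmul, mul_one, mul_inv_cancel₀ ha]
        rfl
      · rw [Algebra.TensorProduct.tmul_mul_tmul, mul_one, inv_mul_cancel₀ ha]
        rfl
  · left
    set c := a * b⁻¹ with hc
    have hcb : c * b = a := by rw [hc, mul_assoc, inv_mul_cancel₀ hb, mul_one]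
    have h1 : (1 : E) ⊗ₜ[L] a + ε ⊗ₜ[L] b
        = ((1 : E) ⊗ₜ[L] c + ε ⊗ₜ[L] (1 : C)) * ((1 : E) ⊗ₜ[L] b) := by
      rw [add_mul, Algebra.TensorProduct.tmul_mul_tmul, Algebra.TensorProduct.tmul_mul_tmul,
        mul_one, mul_one, one_mul, hcb]
    have hub : IsUnit ((1 : E) ⊗ₜ[L] b) := by
      refine ⟨⟨1 ⊗ₜ b, 1 ⊗ₜ b⁻¹, ?_, ?_⟩, rfl⟩
      · rw [Algebra.TensorProduct.tmul_mul_tmul, mul_one, mul_inv_cancel₀ hb]
        rfl
      · rw [Algebra.TensorProduct.tmul_mul_tmul, mul_one, inv_mul_cancel₀ hb]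
        rfl
    rw [h1]
    refine IsUnit.mul ?_ hub
    set d := c * c + algebraMap L C T * c + algebraMap L C N with hd
    have hd0 : d ≠ 0 := hquad c
    -- the product of the two conjugates
    have hprod : ∀ e f : E, e + f = algebraMap L E T → e * f = algebraMap L E N →
        ((1 : E) ⊗ₜ[L] c + e ⊗ₜ[L] (1 : C)) * ((1 : E) ⊗ₜ[L] c + f ⊗ₜ[L] (1 : C))
          = (1 : E) ⊗ₜ[L] d := by
      intro e f hef hef'
      rw [add_mul, mul_add, mul_add, Algebra.TensorProduct.tmul_mul_tmul,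
        Algebra.TensorProduct.tmul_mul_tmul, Algebra.TensorProduct.tmul_mul_tmul,
        Algebra.TensorProduct.tmul_mul_tmul, mul_one, one_mul, one_mul, mul_one, mul_one,
        mul_one, hef', hd, tmul_add, tmul_add, ← Algebra.smul_def,
        TensorProduct.tmul_smul, TensorProduct.smul_tmul', Algebra.smul_def, mul_one, ← hef,
        Algebra.algebraMap_eq_smul_one N (A := C), TensorProduct.tmul_smul,
        TensorProduct.smul_tmul', Algebra.smul_def, mul_one, add_tmul]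
      abel
    have hp1 := hprod ε (s ε) hT.symm hN.symm
    have hp2 := hprod (s ε) ε (by rw [hT, add_comm]) (by rw [hN, mul_comm])
    have hud : ((1 : E) ⊗ₜ[L] d) * ((1 : E) ⊗ₜ[L] d⁻¹) = 1 := by
      rw [Algebra.TensorProduct.tmul_mul_tmul, mul_one, mul_inv_cancel₀ hd0]
      rfl
    have hud' : ((1 : E) ⊗ₜ[L] d⁻¹) * ((1 : E) ⊗ₜ[L] d) = 1 := by
      rw [Algebra.TensorProduct.tmul_mul_tmul, mul_one, inv_mul_cancel₀ hd0]
      rfl
    have hright : ((1 : E) ⊗ₜ[L] c + ε ⊗ₜ[L] (1 : C))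
        * (((1 : E) ⊗ₜ[L] c + (s ε) ⊗ₜ[L] (1 : C)) * ((1 : E) ⊗ₜ[L] d⁻¹)) = 1 := by
      rw [← mul_assoc, hp1, hud]
    have hleft : (((1 : E) ⊗ₜ[L] d⁻¹) * ((1 : E) ⊗ₜ[L] c + (s ε) ⊗ₜ[L] (1 : C)))
        * ((1 : E) ⊗ₜ[L] c + ε ⊗ₜ[L] (1 : C)) = 1 := by
      rw [mul_assoc, hp2, hud']
    have heq := left_inv_eq_right_inv hleft hright
    exact ⟨⟨_, _, hright, by rw [← heq]; exact hleft⟩, rfl⟩

theorem central_repr (s : E ≃ₐ[L] E) (ε : E) (hsε : s ε ≠ ε)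
    (hε : ∀ e : E, ∃ a b : L, e = algebraMap L E a + algebraMap L E b * ε)
    (hcen : ∀ x : C, (∀ y : C, y * x = x * y) → x ∈ Set.range (algebraMap L C))
    (r : E ⊗[L] C) (hr : ∀ y : E ⊗[L] C, y * r = r * y) :
    r ∈ Set.range (algebraMap E (E ⊗[L] C)) := by
  obtain ⟨a, b, rfl⟩ := exists_repr ε hε C r
  have h1 : ∀ c : C, c * a = a * c ∧ c * b = b * c := by
    intro c
    have h2 := hr ((1 : E) ⊗ₜ[L] c)
    rw [mul_add, add_mul, Algebra.TensorProduct.tmul_mul_tmul,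
      Algebra.TensorProduct.tmul_mul_tmul, Algebra.TensorProduct.tmul_mul_tmul,
      Algebra.TensorProduct.tmul_mul_tmul, one_mul, one_mul, mul_one] at h2
    have h3 : (1 : E) ⊗ₜ[L] (c * a - a * c) + ε ⊗ₜ[L] (c * b - b * c) = 0 := by
      rw [tmul_sub, tmul_sub, sub_add_sub_comm, h2, sub_self]
    obtain ⟨h4, h5⟩ := repr_zero s ε hsε C _ _ h3
    exact ⟨sub_eq_zero.1 h4, sub_eq_zero.1 h5⟩
  obtain ⟨a', ha'⟩ := hcen a fun c => (h1 c).1
  obtain ⟨b', hb'⟩ := hcen b fun c => (h1 c).2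
  refine ⟨algebraMap L E a' + algebraMap L E b' * ε, ?_⟩
  rw [Algebra.TensorProduct.algebraMap_apply, Algebra.algebraMap_self, RingHom.id_apply,
    add_tmul, ← ha', ← hb', Algebra.algebraMap_eq_smul_one a' (A := C),
    Algebra.algebraMap_eq_smul_one b' (A := C), TensorProduct.tmul_smul, TensorProduct.tmul_smul,
    TensorProduct.smul_tmul', TensorProduct.smul_tmul', Algebra.smul_def, Algebra.smul_def,
    mul_one]

end

end Pool.Agent.Helper61.DIH
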