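import Pool.Agent.Helper61.DIH.Central

/-!
Helpers for problem MP_249799_al: the case in which the root of unity is quadratic over the base.
-/

set_option autoImplicit false

namespace Pool.Agent.Helper61.DIH

open Pool.Agent.Helper4.GAL Polynomial

theorem core_ne {R : Type*} [DivisionRing R] (x q Z : R) (hx : x ≠ 0) (hq : q ≠ 0)
    (hZ2 : Z * Z ≠ 1) (hzc : ∀ r : R, Z * r = r * Z) (h : q * x = Z * x * q) :
    x - x⁻¹ ≠ 0 ∧ q - q⁻¹ ≠ 0 ∧ x * q - x⁻¹ * q⁻¹ ≠ 0 := by
  have hxx : x * x⁻¹ = 1 := mul_inv_cancel₀ hx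
  have hqq : q * q⁻¹ = 1 := mul_inv_cancel₀ hq
  have hqx2 : q * (x * x) = Z * Z * (x * x) * q := by
    linear_combination (norm := noncomm_ring) h * x + Z * x * h - Z * hzc x * x * q
  have hq2x : (q * q) * x = Z * Z * (x * (q * q)) := by
    linear_combination (norm := noncomm_ring) q * h - hzc q * x * q + Z * h * q
  refine ⟨?_, ?_, ?_⟩
  · intro h0
    have h1 : x * x = 1 := by
      nth_rw 2 [sub_eq_zero.1 h0]
      exact hxx
    rw [h1, mul_one, mul_one] at hqx2
    apply hZ2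
    exact (mul_right_cancel₀ hq (by rw [one_mul]; exact hqx2)).symm
  · intro h0
    have h1 : q * q = 1 := by
      nth_rw 2 [sub_eq_zero.1 h0]
      exact hqq
    rw [h1, mul_one, one_mul] at hq2x
    apply hZ2
    exact (mul_right_cancel₀ hx (by rw [one_mul]; exact hq2x)).symm
  · intro h0
    have h1 : x * q = x⁻¹ * q⁻¹ := sub_eq_zero.1 h0
    have h2 : x * x * (q * q) = 1 := by
      calc x * x * (q * q) = x * (x * q) * q := by noncomm_ring
        _ = (x * x⁻¹) * (q⁻¹ * q) := by rw [h1]; noncomm_ring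
        _ = 1 := by rw [hxx, inv_mul_cancel₀ hq, one_mul]
    have h3 : q * q = (x * x)⁻¹ := eq_inv_of_mul_eq_one_right h2
    have h4 : (q * q) * x = x * (q * q) := by
      rw [h3]
      exact inv_comm _ _ (by noncomm_ring)
    rw [h4] at hq2x
    apply hZ2
    have h5 : x * (q * q) ≠ 0 := mul_ne_zero hx (mul_ne_zero hq hq)
    exact (mul_right_cancel₀ h5 (by rw [one_mul]; exact hq2x)).symm

section

variable {L C R : Type*} [Field L] [DivisionRing C] [Algebra L C] [DivisionRing R]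

/-- Two elements of a larger division ring which are multiplied by inverse scalars under
conjugation by `c`, whose sum and weighted sum lie in `C`. -/
theorem twist_core
    (hcen : ∀ x : C, (∀ y : C, y * x = x * y) → x ∈ Set.range (algebraMap L C))
    (halg : Algebra.IsAlgebraic L C) (j : C →+* R) (c : C) (hc0 : c ≠ 0)
    (Y Y' Z Z' e e' : R) (hY : Y ≠ 0) (hZ : ∀ r : R, Z * r = r * Z)
    (hZ' : ∀ r : R, Z' * r = r * Z')
    (hZZ : Z * Z' = 1) (hZ1 : Z ≠ 1) (he : ∀ r : R, e * r = r * e) (he' : ∀ r : R, e' * r = r * e')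
    (hee : e ≠ e') (α : L) (hα : j (algebraMap L C α) = Z + Z')
    (hcY : j c * Y = Z * Y * j c) (hcY' : j c * Y' = Z' * Y' * j c)
    (h1 : ∃ u : C, j u = Y + Y') (h2 : ∃ u : C, j u = e * Y + e' * Y') : Good L C := by
  have hjinj : Function.Injective j := j.injective
  have hZZ' : Z' * Z = 1 := by rw [← hZ]; exact hZZ
  -- the general statement
  have key : ∀ (e1 e2 : R), (∀ r : R, e1 * r = r * e1) → (∀ r : R, e2 * r = r * e2) →
      ∀ u : C, j u = e1 * Y + e2 * Y' →
      (c * (c * u)) = algebraMap L C α * (c * u * c) - (u * c) * c := by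
    intro e1 e2 he1c he2c u hu
    apply hjinj
    rw [map_mul, map_mul, map_sub, map_mul, map_mul, map_mul, map_mul, map_mul, hα, hu]
    set X := j c with hX
    have hXu : X * (e1 * Y + e2 * Y') = (Z * e1 * Y + Z' * e2 * Y') * X := by
      calc X * (e1 * Y + e2 * Y') = (X * e1) * Y + (X * e2) * Y' := by noncomm_ring
        _ = e1 * (X * Y) + e2 * (X * Y') := by rw [← he1c, ← he2c]; noncomm_ring
        _ = (e1 * Z) * Y * X + (e2 * Z') * Y' * X := by rw [hcY, hcY']; noncomm_ring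
        _ = (Z * e1 * Y + Z' * e2 * Y') * X := by rw [← hZ, ← hZ']; noncomm_ring
    have hXu2 : X * (Z * e1 * Y + Z' * e2 * Y')
        = (Z * Z * e1 * Y + Z' * Z' * e2 * Y') * X := by
      calc X * (Z * e1 * Y + Z' * e2 * Y')
          = (X * (Z * e1)) * Y + (X * (Z' * e2)) * Y' := by noncomm_ring
        _ = ((Z * e1) * X) * Y + ((Z' * e2) * X) * Y' := by
            have h1 : X * (Z * e1) = (Z * e1) * X := by
              rw [← mul_assoc, ← hZ, mul_assoc, ← he1c, mul_assoc]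
            have h2 : X * (Z' * e2) = (Z' * e2) * X := by
              rw [← mul_assoc, ← hZ', mul_assoc, ← he2c, mul_assoc]
            rw [h1, h2]
        _ = (Z * e1) * (X * Y) + (Z' * e2) * (X * Y') := by noncomm_ring
        _ = Z * (e1 * Z) * Y * X + Z' * (e2 * Z') * Y' * X := by
            rw [hcY, hcY']; noncomm_ring
        _ = (Z * Z * e1 * Y + Z' * Z' * e2 * Y') * X := by
            rw [← hZ, ← hZ']; noncomm_ring
    rw [hXu, ← mul_assoc, hXu2]
    linear_combination (norm := noncomm_ring) - hZZ' * e1 * Y * X * X - hZZ * e2 * Y' * X * X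
  -- one of the two elements is not fixed
  have hfinal : ∀ u : C, (c * (c * u)) = algebraMap L C α * (c * u * c) - (u * c) * c →
      c * u ≠ u * c → Good L C := by
    intro u hu hne
    have hcc : c * c⁻¹ = 1 := mul_inv_cancel₀ hc0
    have hcc' : c⁻¹ * c = 1 := inv_mul_cancel₀ hc0
    refine good_of_two_dim hcen halg (B := L) (E := C) (AlgHom.id L C)
      ((LinearMap.mulLeft L c) ∘ₗ (LinearMap.mulRight L c⁻¹)) ?_ (Or.inl ?_) u α 1 ?_ ?_
    · show c * (1 * c⁻¹) = 1
      rw [one_mul, hcc]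
    · intro a b
      show c * (a * b * c⁻¹) = (c * (a * c⁻¹)) * (c * (b * c⁻¹))
      linear_combination (norm := noncomm_ring) - (c * a * hcc' * b * c⁻¹)
    · show c * (u * c⁻¹) ≠ u
      intro h0
      apply hne
      have h1 : c * (u * c⁻¹) * c = u * c := by rw [h0]
      rw [← mul_assoc, mul_assoc _ c⁻¹ c, hcc', mul_one] at h1
      exact h1
    · show c * (c * (u * c⁻¹) * c⁻¹) = α • (c * (u * c⁻¹)) - (1 : L) • u
      rw [one_smul, Algebra.smul_def]
      have h1 : c * (c * u) * c⁻¹ * c⁻¹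
          = (algebraMap L C α * (c * u * c) - (u * c) * c) * c⁻¹ * c⁻¹ := by rw [hu]
      have h2 : (algebraMap L C α * (c * u * c) - (u * c) * c) * c⁻¹ * c⁻¹
          = algebraMap L C α * (c * u * (c * c⁻¹) * c⁻¹) - u * (c * (c * c⁻¹) * c⁻¹) := by
        noncomm_ring
      rw [h2, hcc, mul_one, mul_one, hcc, mul_one] at h1
      rw [← mul_assoc c u c⁻¹, ← h1]
      noncomm_ring
  obtain ⟨u1, hu1⟩ := h1
  obtain ⟨u2, hu2⟩ := h2
  have hk1 := key 1 1 (fun r => by rw [one_mul, mul_one]) (fun r => by rw [one_mul, mul_one]) u1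
    (by rw [hu1, one_mul, one_mul])
  have hk2 := key e e' he he' u2 hu2
  by_cases hf1 : c * u1 = u1 * c
  · by_cases hf2 : c * u2 = u2 * c
    · exfalso
      set X := j c with hX
      have hX0 : X ≠ 0 := by
        intro h0
        apply hc0
        apply hjinj
        rw [← hX, h0, map_zero]
      have g1 : X * j u1 = j u1 * X := by rw [hX, ← map_mul, hf1, map_mul]
      have g2 : X * j u2 = j u2 * X := by rw [hX, ← map_mul, hf2, map_mul]
      rw [hu1] at g1
      rw [hu2] at g2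
      have hd : e - e' ≠ 0 := sub_ne_zero.2 hee
      have g3 : (e - e') * (X * Y) = (e - e') * (Y * X) := by
        linear_combination (norm := noncomm_ring) g2 - e' * g1 + he X * Y + he' X * Y'
      have g4 : X * Y = Y * X := mul_left_cancel₀ hd g3
      rw [hcY] at g4
      have h5 : Y * X ≠ 0 := mul_ne_zero hY hX0
      apply hZ1
      apply mul_right_cancel₀ h5
      rw [one_mul, ← mul_assoc]
      exact g4
    · exact hfinal u2 hk2 hf2
  · exact hfinal u1 hk1 hf1

/-- The descent of a `q`-commuting pair when the root of unity is inverted by `σ`. -/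
theorem core_quad
    (hcen : ∀ x : C, (∀ y : C, y * x = x * y) → x ∈ Set.range (algebraMap L C))
    (halg : Algebra.IsAlgebraic L C) (j : C →+* R) (τ σ : R →+* R)
    (hfix : ∀ r : R, τ r = r → σ r = r → ∃ d : C, j d = r)
    (hσσ : ∀ r, σ (σ r) = r) (hcomm : ∀ r, τ (σ r) = σ (τ r))
    (e Z Z' : R) (he : ∀ r : R, e * r = r * e) (hτe : τ e = e) (hσe : σ e ≠ e)
    (hZ2 : Z * Z ≠ 1) (hZc : ∀ r : R, Z * r = r * Z) (hZZ : Z * Z' = 1) (hσZ : σ Z = Z')
    (α : L) (hα : j (algebraMap L C α) = Z + Z')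
    (x q : R) (hx : x ≠ 0) (hq : q ≠ 0) (h : q * x = Z * x * q)
    (hτx : τ x = x⁻¹) (hσx : σ x = x⁻¹) (hτq : τ q = q⁻¹) (hσq : σ q = q) : Good L C := by
  have hZ0 : Z ≠ 0 := left_ne_zero_of_mul_eq_one hZZ
  have hZinv : Z' = Z⁻¹ := eq_inv_of_mul_eq_one_right hZZ
  have hZc' : ∀ r : R, Z' * r = r * Z' := by
    intro r
    rw [hZinv]
    exact inv_comm _ _ (hZc r)
  obtain ⟨hA, hB, hC⟩ := core_ne x q Z hx hq hZ2 hZc h
  have hAτ : τ (x - x⁻¹) = -(x - x⁻¹) := by
    rw [map_sub, map_inv₀, hτx, inv_inv, neg_sub]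
  have hBτ : τ (q - q⁻¹) = -(q - q⁻¹) := by
    rw [map_sub, map_inv₀, hτq, inv_inv, neg_sub]
  have hCτ : τ (x * q - x⁻¹ * q⁻¹) = -(x * q - x⁻¹ * q⁻¹) := by
    rw [map_sub, map_mul, map_mul, map_inv₀, map_inv₀, hτx, hτq, inv_inv, inv_inv, neg_sub]
  have hAσ : σ (x - x⁻¹) = -(x - x⁻¹) := by
    rw [map_sub, map_inv₀, hσx, inv_inv, neg_sub]
  have hBσ : σ (q - q⁻¹) = q - q⁻¹ := by
    rw [map_sub, map_inv₀, hσq]
  set u := (x - x⁻¹)⁻¹ * (q - q⁻¹) with hu
  set G := (x - x⁻¹)⁻¹ * (x * q - x⁻¹ * q⁻¹) with hG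
  have hu0 : u ≠ 0 := mul_ne_zero (inv_ne_zero hA) hB
  have hG0 : G ≠ 0 := mul_ne_zero (inv_ne_zero hA) hC
  have hτu : τ u = u := by
    rw [hu, map_mul, map_inv₀, hAτ, hBτ, inv_neg, neg_mul_neg]
  have hτG : τ G = G := by
    rw [hG, map_mul, map_inv₀, hAτ, hCτ, inv_neg, neg_mul_neg]
  have hσu : σ u = - u := by
    rw [hu, map_mul, map_inv₀, hAσ, hBσ, inv_neg, neg_mul]
  have key := key_id x q Z hx hq hZ0 hZc h hA
  rw [← hu, ← hG] at key
  clear_value u G
  have hσe' : ∀ r : R, σ e * r = r * σ e := by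
    intro r
    have h1 := congrArg σ (he (σ r))
    rw [map_mul, map_mul, hσσ] at h1
    exact h1
  have hd0 : e - σ e ≠ 0 := sub_ne_zero.2 hσe.symm
  -- the element of `C` conjugation by which is used
  obtain ⟨c, hc⟩ := hfix ((e - σ e) * u) (by
    rw [map_mul, map_sub, hτe, hcomm, hτe, hτu]) (by
    rw [map_mul, map_sub, hσσ, hσu]
    noncomm_ring)
  have hc0 : c ≠ 0 := by
    intro h0
    rw [h0, map_zero] at hc
    exact mul_ne_zero hd0 hu0 hc.symm
  have hdc : ∀ r : R, (e - σ e) * r = r * (e - σ e) := by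
    intro r
    rw [sub_mul, mul_sub, he, hσe']
  have hcG : j c * G = Z * G * j c := by
    rw [hc]
    calc (e - σ e) * u * G = (e - σ e) * (u * G) := by noncomm_ring
      _ = (e - σ e) * (Z * G) * u := by rw [key]; noncomm_ring
      _ = Z * G * ((e - σ e) * u) := by rw [hdc]; noncomm_ring
  have hσc : σ (j c) = j c := by
    rw [hc, map_mul, map_sub, hσσ, hσu]
    noncomm_ring
  have hcG' : j c * σ G = Z' * σ G * j c := by
    have h1 := congrArg σ hcG
    rw [map_mul, map_mul, map_mul, hσc, hσZ] at h1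
    exact h1
  have hZ1 : Z ≠ 1 := by
    intro h0
    apply hZ2
    rw [h0, one_mul]
  refine twist_core hcen halg j c hc0 G (σ G) Z Z' e (σ e) hG0 hZc hZc' hZZ hZ1 he hσe' hσe.symm
    α hα hcG hcG' ?_ ?_
  · refine hfix _ ?_ ?_
    · rw [map_add, hcomm, hτG]
    · rw [map_add, hσσ, add_comm]
  · refine hfix _ ?_ ?_
    · rw [map_add, map_mul, map_mul, hcomm, hcomm, hτG, hτe]
    · rw [map_add, map_mul, map_mul, hσσ, hσσ, add_comm]

end

end Pool.Agent.Helper61.DIH
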